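import Pool.Agent.MP_4804cd_al.Amalgam

/-!
An explicit group generated by (a copy containing) two elements `u`, `v` with
`v⁻¹ u v = u ^ 2`, and the amalgam of two of them.
-/

set_option autoImplicit false

namespace Pool.Agent.MP_4804cd_al

open Monoid Function

instance fact_prime_seven : Fact (Nat.Prime 7) := ⟨by norm_num⟩

/-- coefficient ring -/
abbrev RR : Type := ZMod 3 × ZMod 7 × ℚ

/-- the unit `2` of the coefficient ring -/
def two : RRˣ where
  val := 2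
  inv := (2, 4, 1/2)
  val_inv := by
    ext
    · decide
    · decide
    · show (2 : ℚ) * (1/2) = 1
      norm_num
  inv_val := by
    ext
    · decide
    · decide
    · show (1/2) * (2 : ℚ) = 1
      norm_num

/-- affine maps `z ↦ 2^(-k) z + t` -/
@[ext] structure Aff : Type where
  t : RR
  k : ℤ

namespace Aff

instance : Mul Aff := ⟨fun x y => ⟨x.t + ((two ^ (-x.k) : RRˣ) : RR) * y.t, x.k + y.k⟩⟩
instance : One Aff := ⟨⟨0, 0⟩⟩
instance : Inv Aff := ⟨fun x => ⟨-(((two ^ x.k : RRˣ) : RR) * x.t), -x.k⟩⟩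

theorem mul_t (x y : Aff) : (x * y).t = x.t + ((two ^ (-x.k) : RRˣ) : RR) * y.t := rfl
theorem mul_k (x y : Aff) : (x * y).k = x.k + y.k := rfl
theorem one_t : (1 : Aff).t = 0 := rfl
theorem one_k : (1 : Aff).k = 0 := rfl
theorem inv_t (x : Aff) : (x⁻¹).t = -(((two ^ x.k : RRˣ) : RR) * x.t) := rfl
theorem inv_k (x : Aff) : (x⁻¹).k = -x.k := rfl

instance : Group Aff :=
  Group.ofLeftAxioms
    (by
      intro x y z
      ext1
      · simp only [mul_t, mul_k, neg_add, zpow_add, Units.val_mul]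
        ring
      · simp only [mul_k]; ring)
    (by
      intro x
      ext1
      · simp [mul_t, one_t, one_k]
      · simp [mul_k, one_k])
    (by
      intro x
      ext1
      · simp only [mul_t, inv_t, inv_k, neg_neg, one_t]
        ring
      · simp [mul_k, inv_k, one_k])

/-- translation by one -/
def u : Aff := ⟨1, 0⟩
/-- halving -/
def v : Aff := ⟨0, 1⟩

theorem u_zpow (n : ℤ) : u ^ n = ⟨(n : RR), 0⟩ := by
  induction n using Int.induction_on with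
  | zero => ext1 <;> simp [one_t, one_k]
  | succ n ih =>
    rw [zpow_add_one, ih]
    ext1
    · simp [mul_t, u]
    · simp [mul_k, u]
  | pred n ih =>
    rw [zpow_sub_one, ih]
    ext1
    · simp [mul_t, u, inv_t]
      ring
    · simp [mul_k, u, inv_k]

theorem v_zpow (n : ℤ) : v ^ n = ⟨0, n⟩ := by
  induction n using Int.induction_on with
  | zero => ext1 <;> simp [one_t, one_k]
  | succ n ih =>
    rw [zpow_add_one, ih]
    ext1
    · simp [mul_t, v]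
    · simp [mul_k, v]
  | pred n ih =>
    rw [zpow_sub_one, ih]
    ext1
    · simp [mul_t, v, inv_t]
    · simp [mul_k, v, inv_k]
      ring

theorem rel : v⁻¹ * u * v = u ^ 2 := by
  ext1
  · simp only [mul_t, inv_t, inv_k, mul_k, u, v, pow_two]
    simp [two]
    norm_num
  · simp [mul_k, inv_k, u, v, pow_two]

/-- the subgroup of elements with `3`-divisible coordinates -/
def sub3 : Subgroup Aff where
  carrier := {x | x.t.1 = 0 ∧ (3 : ℤ) ∣ x.k}
  mul_mem' := by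
    rintro x y ⟨hx1, hx2⟩ ⟨hy1, hy2⟩
    refine ⟨?_, ?_⟩
    · simp [mul_t, hx1, hy1]
    · rw [mul_k]; exact dvd_add hx2 hy2
  one_mem' := ⟨rfl, by simp [one_k]⟩
  inv_mem' := by
    rintro x ⟨hx1, hx2⟩
    refine ⟨?_, ?_⟩
    · simp [inv_t, hx1]
    · rw [inv_k]; exact (dvd_neg).2 hx2

theorem mem_sub3 (x : Aff) : x ∈ sub3 ↔ x.t.1 = 0 ∧ (3 : ℤ) ∣ x.k := Iff.rfl

theorem u_zpow_mul_v_zpow (n m : ℤ) : u ^ n * v ^ m = ⟨(n : RR), m⟩ := by
  rw [u_zpow, v_zpow]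
  ext1
  · simp [mul_t]
  · simp [mul_k]

theorem dvd_of_fst (n : ℤ) (h : ((n : RR)).1 = 0) : (3 : ℤ) ∣ n := by
  have : ((n : ℤ) : ZMod 3) = 0 := by simpa using h
  exact (ZMod.intCast_zmod_eq_zero_iff_dvd n 3).1 this

theorem fst_of_dvd (n : ℤ) (h : (3 : ℤ) ∣ n) : ((n : RR)).1 = 0 := by
  have : ((n : ℤ) : ZMod 3) = 0 := (ZMod.intCast_zmod_eq_zero_iff_dvd n 3).2 h
  simpa using this

theorem dvd_of_uv (n m : ℤ) (h : u ^ n * v ^ m ∈ sub3) : (3 : ℤ) ∣ n := by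
  rw [u_zpow_mul_v_zpow] at h
  exact dvd_of_fst n h.1

theorem dvd_of_vu (n m : ℤ) (h : v ^ n * u ^ m ∈ sub3) : (3 : ℤ) ∣ n := by
  have := h.2
  rw [mul_k, u_zpow, v_zpow] at this
  simpa using this

theorem u_zpow_mem (n : ℤ) : u ^ n ∈ sub3 ↔ (3 : ℤ) ∣ n := by
  rw [u_zpow]
  constructor
  · intro h; exact dvd_of_fst n h.1
  · intro h; exact ⟨fst_of_dvd n h, by simp⟩

theorem v_zpow_mem (n : ℤ) : v ^ n ∈ sub3 ↔ (3 : ℤ) ∣ n := by
  rw [v_zpow]
  constructor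
  · intro h; exact h.2
  · intro h; exact ⟨rfl, h⟩

theorem u_zpow_ne (n m : ℤ) (h : u ^ n = v ^ m) : n = 0 := by
  rw [u_zpow, v_zpow] at h
  have := congrArg (fun x : Aff => x.t.2.2) h
  simpa using this

theorem v_zpow_ne (n m : ℤ) (h : v ^ n = u ^ m) : n = 0 := by
  rw [u_zpow, v_zpow] at h
  have := congrArg (fun x : Aff => x.k) h
  simpa using this

theorem u_inj (n m : ℤ) (h : u ^ n = u ^ m) : n = m := by
  rw [u_zpow, u_zpow] at h
  have := congrArg (fun x : Aff => x.t.2.2) h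
  simpa using this

theorem v_inj (n m : ℤ) (h : v ^ n = v ^ m) : n = m := by
  rw [v_zpow, v_zpow] at h
  exact congrArg (fun x : Aff => x.k) h

/-- projection to `ZMod 7` -/
def pr7 : RR →+* ZMod 7 := (RingHom.fst (ZMod 7) ℚ).comp (RingHom.snd (ZMod 3) (ZMod 7 × ℚ))

theorem two_zpow_snd (k : ℤ) (hk : (3 : ℤ) ∣ k) : ((two ^ (-k) : RRˣ) : RR).2.1 = 1 := by
  obtain ⟨m, rfl⟩ := hk
  have h3 : (Units.map (pr7 : RR →* ZMod 7) two) ^ 3 = 1 := by
    ext
    show ((2 : ZMod 7)) ^ 3 = 1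
    decide
  have h1 : Units.map (pr7 : RR →* ZMod 7) (two ^ (-(3 * m))) = 1 := by
    rw [map_zpow]
    have : (-(3 * m) : ℤ) = (3 : ℕ) * (-m) := by push_cast; ring
    rw [this, zpow_mul, zpow_natCast, h3, one_zpow]
  have h2 := congrArg (fun z : (ZMod 7)ˣ => (z : ZMod 7)) h1
  exact h2

section hom

variable {Y : Type*} [Group Y] (yu yv : Y)

theorem pow_val_add (y : Y) (h : y ^ 7 = 1) (a b : ZMod 7) :
    y ^ (a + b).val = y ^ a.val * y ^ b.val := by
  rw [ZMod.val_add, ← pow_add]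
  exact (pow_eq_pow_mod _ h).symm

/-- the homomorphism on `sub3` sending `u ^ 3` to `yu` and `v ^ 3` to `yv`. -/
def hom (hu : yu ^ 7 = 1) (_hv : yv ^ 7 = 1) (hc : Commute yu yv) : sub3 →* Y where
  toFun x := yu ^ (5 * (x : Aff).t.2.1).val * yv ^ ((x : Aff).k / 3)
  map_one' := by simp [one_t, one_k]
  map_mul' := by
    rintro ⟨x, hx1, hx2⟩ ⟨y, hy1, hy2⟩
    have h1 : (x * y).t.2.1 = x.t.2.1 + y.t.2.1 := by
      rw [mul_t, Prod.snd_add, Prod.fst_add, Prod.snd_mul, Prod.fst_mul,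
        two_zpow_snd _ hx2, one_mul]
    have h2 : (x * y).k / 3 = x.k / 3 + y.k / 3 := by
      rw [mul_k]; exact Int.add_ediv_of_dvd_left hx2
    show yu ^ (5 * (x * y).t.2.1).val * yv ^ ((x * y).k / 3) =
      (yu ^ (5 * x.t.2.1).val * yv ^ (x.k / 3)) * (yu ^ (5 * y.t.2.1).val * yv ^ (y.k / 3))
    rw [h1, h2, mul_add, pow_val_add _ hu, zpow_add]
    have hcc : Commute (yv ^ (x.k / 3)) (yu ^ (5 * y.t.2.1).val) :=
      (hc.symm.pow_right _).zpow_left _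
    calc _ = yu ^ (5 * x.t.2.1).val * (yu ^ (5 * y.t.2.1).val * yv ^ (x.k / 3)) *
          yv ^ (y.k / 3) := by group
      _ = _ := by rw [← hcc.eq]; group

theorem hom_u (hu : yu ^ 7 = 1) (hv : yv ^ 7 = 1) (hc : Commute yu yv) (n : ℤ)
    (hn : u ^ (3 * n) ∈ sub3) : hom yu yv hu hv hc ⟨u ^ (3 * n), hn⟩ = yu ^ n := by
  show yu ^ (5 * (u ^ (3 * n)).t.2.1).val * yv ^ ((u ^ (3 * n)).k / 3) = yu ^ n
  rw [u_zpow]
  have h1 : (5 * (((3 * n : ℤ) : RR)).2.1 : ZMod 7) = ((n : ℤ) : ZMod 7) := by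
    have : (((3 * n : ℤ) : RR)).2.1 = (3 : ZMod 7) * (n : ZMod 7) := by
      push_cast
      simp
    rw [this, ← mul_assoc]
    have : (5 * 3 : ZMod 7) = 1 := by decide
    rw [this, one_mul]
  show yu ^ (5 * (((3 * n : ℤ) : RR)).2.1).val * yv ^ ((0 : ℤ) / 3) = yu ^ n
  rw [h1]
  simp only [Int.zero_ediv, zpow_zero, mul_one]
  rw [← zpow_natCast, ZMod.val_intCast]
  have h2 : n = 7 * (n / 7) + n % 7 := (Int.mul_ediv_add_emod n 7).symm
  conv_rhs => rw [h2, zpow_add, zpow_mul]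
  have h3 : yu ^ (7 : ℤ) = 1 := by exact_mod_cast hu
  rw [h3, one_zpow, one_mul]
  norm_num

theorem hom_v (hu : yu ^ 7 = 1) (hv : yv ^ 7 = 1) (hc : Commute yu yv) (n : ℤ)
    (hn : v ^ (3 * n) ∈ sub3) : hom yu yv hu hv hc ⟨v ^ (3 * n), hn⟩ = yv ^ n := by
  show yu ^ (5 * (v ^ (3 * n)).t.2.1).val * yv ^ ((v ^ (3 * n)).k / 3) = yv ^ n
  rw [v_zpow]
  show yu ^ (5 * (0 : ZMod 7)).val * yv ^ ((3 * n) / 3) = yv ^ n
  simp

end hom

end Aff

end Pool.Agent.MP_4804cd_al
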