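import Mathlib

/-!
Sub-amalgams: for injective pushout diagrams of groups we show that a compatible
family of subgroups generates its own pushout, and a first letter lemma.
-/

set_option autoImplicit false

namespace Pool.Agent.MP_4804cd_al

open Monoid Function

section Amalgam

variable {ι : Type*} {G : ι → Type*} {H : Type*} [∀ i, Group (G i)] [Group H]

/-- product of a list of letters in the pushout -/
def lprod (φ : ∀ i, H →* G i) (L : List (Σ i, G i)) : PushoutI φ :=
  (L.map fun s => PushoutI.of s.1 s.2).prod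

/-- reduced lists of letters -/
def Red (φ : ∀ i, H →* G i) (L : List (Σ i, G i)) : Prop :=
  (∀ s ∈ L, s.2 ∉ (φ s.1).range) ∧ L.IsChain fun a b => a.1 ≠ b.1

variable {φ : ∀ i, H →* G i}

theorem lprod_nil : lprod φ [] = 1 := rfl

theorem lprod_cons (s : Σ i, G i) (L : List (Σ i, G i)) :
    lprod φ (s :: L) = PushoutI.of s.1 s.2 * lprod φ L := rfl

theorem lprod_append (L M : List (Σ i, G i)) :
    lprod φ (L ++ M) = lprod φ L * lprod φ M := by
  simp [lprod]

theorem lprod_not_mem_base (hφ : ∀ i, Injective (φ i)) (L : List (Σ i, G i))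
    (hne : L ≠ []) (hr : Red φ L) :
    lprod φ L ∉ (PushoutI.base φ).range := by
  intro hmem
  let w : CoprodI.Word G :=
    ⟨L, fun s hs h1 => hr.1 s hs (by rw [h1]; exact one_mem _), hr.2⟩
  have hw : PushoutI.Reduced φ w := fun s hs => hr.1 s hs
  have h0 : w = .empty := hw.eq_empty_of_mem_range hφ (by
    have : PushoutI.ofCoprodI (φ := φ) w.prod = lprod φ L := by
      simp [CoprodI.Word.prod, lprod, map_list_prod, w, Function.comp_def]
    rw [this]; exact hmem)
  exact hne (congrArg CoprodI.Word.toList h0)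

theorem exists_red (hφ : ∀ i, Injective (φ i)) (x : PushoutI φ) :
    ∃ (h : H) (L : List (Σ i, G i)), Red φ L ∧ x = PushoutI.base φ h * lprod φ L := by
  classical
  obtain ⟨d⟩ := PushoutI.NormalWord.transversal_nonempty φ hφ
  let w := (PushoutI.NormalWord.equiv (d := d)) x
  have hx : w.prod = x := PushoutI.NormalWord.equiv.left_inv x
  refine ⟨w.head, w.toList, ⟨?_, w.chain_ne⟩, ?_⟩
  · rintro ⟨i, g⟩ hs hg
    have h1 : g ∈ d.set i := w.normalized i g hs
    have h2 : g ≠ 1 := w.ne_one _ hs
    have hc := (d.compl i).1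
    have := @hc (⟨⟨g, hg⟩, ⟨1, d.one_mem i⟩⟩) (⟨1, ⟨g, h1⟩⟩) (by simp)
    simp only [Prod.mk.injEq, Subtype.ext_iff] at this
    exact h2 this.1
  · rw [← hx]
    simp [PushoutI.NormalWord.prod, CoprodI.Word.prod, lprod, map_list_prod, Function.comp_def]

/-- inverse list -/
def invL (L : List (Σ i, G i)) : List (Σ i, G i) :=
  (L.map fun s => (⟨s.1, s.2⁻¹⟩ : Σ i, G i)).reverse

theorem lprod_invL (L : List (Σ i, G i)) : lprod φ (invL L) = (lprod φ L)⁻¹ := by
  induction L with
  | nil => simp [invL, lprod]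
  | cons s L ih =>
    have : invL (s :: L) = invL L ++ [⟨s.1, s.2⁻¹⟩] := by simp [invL]
    rw [this, lprod_append, ih, lprod_cons, lprod_cons, lprod_nil]
    simp

theorem Red.tail {s : Σ i, G i} {L : List (Σ i, G i)} (h : Red φ (s :: L)) : Red φ L :=
  ⟨fun t ht => h.1 t (List.mem_cons_of_mem _ ht), h.2.tail⟩

theorem Red.cons_iff {s : Σ i, G i} {L : List (Σ i, G i)} :
    Red φ (s :: L) ↔ s.2 ∉ (φ s.1).range ∧ (∀ t ∈ L.head?, s.1 ≠ t.1) ∧ Red φ L := by
  unfold Red
  rw [List.isChain_cons]
  constructor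
  · rintro ⟨h1, h2, h3⟩
    exact ⟨h1 s List.mem_cons_self, h2, fun t ht => h1 t (List.mem_cons_of_mem _ ht), h3⟩
  · rintro ⟨h1, h2, h3, h4⟩
    refine ⟨?_, h2, h4⟩
    intro t ht
    rcases List.mem_cons.1 ht with rfl | ht
    · exact h1
    · exact h3 t ht

theorem Red.glue {i : ι} {f z : G i} {A B : List (Σ i, G i)}
    (hA : Red φ (⟨i, f⟩ :: A)) (hB : Red φ (⟨i, z⟩ :: B)) :
    Red φ (invL A ++ ⟨i, z⟩ :: B) := by
  obtain ⟨-, hA2, hA3⟩ := Red.cons_iff.1 hA
  constructor
  · intro s hs
    rcases List.mem_append.1 hs with hs | hs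
    · simp only [invL, List.mem_reverse, List.mem_map] at hs
      obtain ⟨t, ht, rfl⟩ := hs
      intro h
      exact hA3.1 t ht (by simpa using h)
    · exact hB.1 s hs
  · refine List.IsChain.append ?_ hB.2 ?_
    · simp only [invL, List.isChain_reverse, List.isChain_map]
      exact hA3.2.imp fun a b h => Ne.symm h
    · intro x hx y hy
      simp only [List.head?_cons, Option.mem_some_iff] at hy
      subst hy
      simp only [invL, List.getLast?_reverse, List.head?_map, Option.mem_def,
        Option.map_eq_some_iff] at hx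
      obtain ⟨t, ht, rfl⟩ := hx
      exact fun h => hA2 t ht h.symm

end Amalgam

section Sub

variable {ι : Type*} {G G' : ι → Type*} {H H' : Type*} [∀ i, Group (G i)] [Group H]
  [∀ i, Group (G' i)] [Group H'] {φ : ∀ i, H →* G i} {φ' : ∀ i, H' →* G' i}

/-- The map of pushouts induced by a map of diagrams. -/
def pushMap (α : H' →* H) (β : ∀ i, G' i →* G i) (hcomm : ∀ i h, β i (φ' i h) = φ i (α h)) :
    PushoutI φ' →* PushoutI φ :=
  PushoutI.lift (fun i => (PushoutI.of i).comp (β i)) ((PushoutI.base φ).comp α) (by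
    intro i
    ext h
    simp only [MonoidHom.comp_apply, hcomm]
    exact PushoutI.of_apply_eq_base φ i (α h))

variable {α : H' →* H} {β : ∀ i, G' i →* G i} (hcomm : ∀ i h, β i (φ' i h) = φ i (α h))

@[simp] theorem pushMap_of (i : ι) (g : G' i) :
    pushMap α β hcomm (PushoutI.of i g) = PushoutI.of i (β i g) := by
  simp [pushMap]

@[simp] theorem pushMap_base (h : H') :
    pushMap α β hcomm (PushoutI.base φ' h) = PushoutI.base φ (α h) := by
  simp [pushMap]

/-- map letters -/
def mapL (β : ∀ i, G' i →* G i) (L : List (Σ i, G' i)) : List (Σ i, G i) :=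
  L.map fun s => ⟨s.1, β s.1 s.2⟩

theorem pushMap_lprod (L : List (Σ i, G' i)) :
    pushMap α β hcomm (lprod φ' L) = lprod φ (mapL β L) := by
  induction L with
  | nil => simp [lprod, mapL]
  | cons s L ih => rw [lprod_cons, map_mul, ih, pushMap_of]; rfl

theorem Red.mapL (hpull : ∀ i g, β i g ∈ (φ i).range → g ∈ (φ' i).range)
    {L : List (Σ i, G' i)} (h : Red φ' L) : Red φ (mapL β L) := by
  constructor
  · intro s hs
    simp only [Pool.Agent.MP_4804cd_al.mapL, List.mem_map] at hs
    obtain ⟨t, ht, rfl⟩ := hs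
    exact fun hh => h.1 t ht (hpull _ _ hh)
  · simp only [Pool.Agent.MP_4804cd_al.mapL, List.isChain_map]
    exact h.2

include hcomm in
theorem inj_of_inj (hφ : ∀ i, Injective (φ i)) (hα : Injective α) :
    ∀ i, Injective (φ' i) := by
  intro i
  have : Injective ((β i) ∘ (φ' i)) := by
    have : (β i) ∘ (φ' i) = (φ i) ∘ α := by
      funext h; exact hcomm i h
    rw [this]; exact (hφ i).comp hα
  exact this.of_comp

theorem pushMap_injective (hφ : ∀ i, Injective (φ i)) (hα : Injective α)
    (hpull : ∀ i g, β i g ∈ (φ i).range → g ∈ (φ' i).range) :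
    Injective (pushMap α β hcomm) := by
  rw [injective_iff_map_eq_one]
  intro x hx
  obtain ⟨h, L, hL, rfl⟩ := exists_red (inj_of_inj hcomm hφ hα) x
  rw [map_mul, pushMap_base, pushMap_lprod] at hx
  by_cases hLe : L = []
  · subst hLe
    simp only [mapL, List.map_nil, lprod_nil, mul_one] at hx ⊢
    have h1 := PushoutI.base_injective hφ (hx.trans (map_one _).symm)
    have h2 := hα (h1.trans (map_one _).symm)
    rw [h2, map_one]
  · exfalso
    refine lprod_not_mem_base hφ (mapL β L) (by simpa [mapL] using hLe) (hL.mapL hpull) ?_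
    refine ⟨(α h)⁻¹, ?_⟩
    rw [map_inv]
    exact (eq_inv_of_mul_eq_one_right hx).symm

/-- First letter lemma: if a reduced word represents an element of the image of the
sub-pushout, then its first letter is, up to the base group, in the subgroup. -/
theorem first_letter (hφ : ∀ i, Injective (φ i)) (hα : Injective α)
    (hpull : ∀ i g, β i g ∈ (φ i).range → g ∈ (φ' i).range)
    {i : ι} {f : G i} {A : List (Σ i, G i)} (hA : Red φ (⟨i, f⟩ :: A))
    (hmem : lprod φ (⟨i, f⟩ :: A) ∈ (pushMap α β hcomm).range) :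
    ∃ (m : H) (g : G' i), f * φ i m = β i g := by
  obtain ⟨y, hy⟩ := hmem
  obtain ⟨h, L, hL, rfl⟩ := exists_red (inj_of_inj hcomm hφ hα) y
  rw [map_mul, pushMap_base, pushMap_lprod] at hy
  rcases L with _ | ⟨⟨j, g⟩, L⟩
  · exfalso
    simp only [mapL, List.map_nil, lprod_nil, mul_one] at hy
    exact lprod_not_mem_base hφ _ (by simp) hA ⟨_, hy⟩
  · have hM := hL.mapL hpull
    have hMe : mapL β (⟨j, g⟩ :: L) = ⟨j, β j g⟩ :: mapL β L := rfl
    rw [hMe] at hM hy
    rw [lprod_cons, lprod_cons] at hy
    simp only at hy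
    by_cases hij : i = j
    · subst hij
      by_cases hz : f⁻¹ * φ i (α h) * β i g ∈ (φ i).range
      · obtain ⟨m, hm⟩ := hz
        refine ⟨m, φ' i h * g, ?_⟩
        rw [map_mul, hcomm, hm]
        group
      · exfalso
        have hM2 : Red φ (⟨i, f⁻¹ * φ i (α h) * β i g⟩ :: mapL β L) := by
          obtain ⟨-, h2, h3⟩ := Red.cons_iff.1 hM
          exact Red.cons_iff.2 ⟨hz, h2, h3⟩
        refine lprod_not_mem_base hφ _ (by simp) (Red.glue hA hM2) ?_
        rw [lprod_append, lprod_invL, lprod_cons]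
        simp only [map_mul, map_inv, PushoutI.of_apply_eq_base]
        have : (lprod φ A)⁻¹ * ((PushoutI.of i f)⁻¹ * PushoutI.base φ (α h) * PushoutI.of i (β i g)
            * lprod φ (mapL β L)) = 1 := by
          have h5 : PushoutI.base φ (α h) * (PushoutI.of i (β i g) * lprod φ (mapL β L))
              = PushoutI.of i f * lprod φ A := hy
          calc _ = (lprod φ A)⁻¹ * (PushoutI.of i f)⁻¹ * (PushoutI.base φ (α h) *
              (PushoutI.of i (β i g) * lprod φ (mapL β L))) := by group
            _ = 1 := by rw [h5]; group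
        rw [this]
        exact one_mem _
    · exfalso
      have hz : f⁻¹ * φ i (α h) ∉ (φ i).range := by
        intro hh
        have h1 : f ∉ (φ i).range := (Red.cons_iff.1 hA).1
        apply h1
        have h2 : f⁻¹ ∈ (φ i).range := by
          have := mul_mem hh (inv_mem (⟨α h, rfl⟩ : φ i (α h) ∈ (φ i).range))
          simpa using this
        simpa using inv_mem h2
      have hM2 : Red φ (⟨i, f⁻¹ * φ i (α h)⟩ :: ⟨j, β j g⟩ :: mapL β L) := by
        refine Red.cons_iff.2 ⟨hz, ?_, hM⟩
        intro t ht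
        simp only [List.head?_cons, Option.mem_some_iff] at ht
        subst ht
        exact hij
      refine lprod_not_mem_base hφ _ (by simp) (Red.glue hA hM2) ?_
      rw [lprod_append, lprod_invL, lprod_cons, lprod_cons]
      simp only [map_mul, map_inv, PushoutI.of_apply_eq_base]
      have : (lprod φ A)⁻¹ * ((PushoutI.of i f)⁻¹ * PushoutI.base φ (α h) *
          (PushoutI.of j (β j g) * lprod φ (mapL β L))) = 1 := by
        calc _ = (lprod φ A)⁻¹ * (PushoutI.of i f)⁻¹ * (PushoutI.base φ (α h) *
              (PushoutI.of j (β j g) * lprod φ (mapL β L))) := by group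
            _ = 1 := by rw [hy]; group
      rw [this]
      exact one_mem _

end Sub

end Pool.Agent.MP_4804cd_al
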