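import Pool.Agent.MP_4804cd_al.MainGroup

/-!
The subgroup `N` is not finitely presented.
-/

set_option autoImplicit false

namespace Pool.Agent.MP_4804cd_al

namespace Setting

variable {G : Type} [Group G] (S : Setting G)

theorem lev_L_zpow (i : Fin 2) (k : ℤ) (a : G) :
    S.morse.lev (S.L i ^ k * a) = lv ((pp i ^ k) (S.st1 a)) + lv (S.st2 a) := by
  show lv (S.st1 (S.L i ^ k * a)) + lv (S.st2 (S.L i ^ k * a)) = _
  rw [st1_mul, st2_mul, S.p_L_zpow]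
  rfl

theorem lev_R_zpow (i : Fin 2) (k : ℤ) (a : G) :
    S.morse.lev (S.R i ^ k * a) = lv (S.st1 a) + lv ((pp i ^ k) (S.st2 a)) := by
  show lv (S.st1 (S.R i ^ k * a)) + lv (S.st2 (S.R i ^ k * a)) = _
  rw [st1_mul, st2_mul, S.p_R_zpow]
  rfl

theorem lev_def (a : G) : S.morse.lev a = lv (S.st1 a) + lv (S.st2 a) := rfl

theorem low (a : G) : ∃ (i : Fin 2) (k : ℤ) (j : Fin 2) (m : ℤ),
    S.morse.lev (S.L i ^ k * a) = S.morse.lev a - 1 ∧
    S.morse.lev (S.R j ^ m * a) = S.morse.lev a - 1 := by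
  obtain ⟨i, k, -, h1⟩ := lv_low (S.st1 a)
  obtain ⟨j, m, -, h2⟩ := lv_low (S.st2 a)
  refine ⟨i, k, j, m, ?_, ?_⟩
  · rw [lev_L_zpow, lev_def, h1]; ring
  · rw [lev_R_zpow, lev_def, h2]; ring

theorem up (a : G) : ∃ (i : Fin 2) (k : ℤ) (j : Fin 2) (m : ℤ),
    S.morse.lev (S.L i ^ k * a) = S.morse.lev a + 1 ∧
    S.morse.lev (S.R j ^ m * a) = S.morse.lev a + 1 := by
  obtain ⟨i, k, -, h1⟩ := lv_up (S.st1 a)
  obtain ⟨j, m, -, h2⟩ := lv_up (S.st2 a)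
  refine ⟨i, k, j, m, ?_, ?_⟩
  · rw [lev_L_zpow, lev_def, h1]; ring
  · rw [lev_R_zpow, lev_def, h2]; ring

/-- the seventh powers -/
def Z7 : Set G := {z | (∃ i, z = S.L i ^ 7) ∨ ∃ j, z = S.R j ^ 7}

theorem Z7_finite : S.Z7.Finite := by
  have : S.Z7 = (Set.range fun i => S.L i ^ 7) ∪ Set.range fun j => S.R j ^ 7 := by
    ext z
    constructor
    · rintro (⟨i, rfl⟩ | ⟨j, rfl⟩)
      · exact Or.inl ⟨i, rfl⟩
      · exact Or.inr ⟨j, rfl⟩
    · rintro (⟨i, rfl⟩ | ⟨j, rfl⟩)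
      · exact Or.inl ⟨i, rfl⟩
      · exact Or.inr ⟨j, rfl⟩
  rw [this]
  exact (Set.finite_range _).union (Set.finite_range _)

theorem p_Z7 {z : G} (hz : z ∈ S.Z7) : S.p z = 1 := by
  rcases hz with ⟨i, rfl⟩ | ⟨j, rfl⟩
  · exact S.p_L7 i
  · exact S.p_R7 j

theorem not_fp {k : ℕ} (rels : Finset (FreeGroup (Fin k))) :
    ¬ Nonempty (PresentedGroup (rels : Set (FreeGroup (Fin k))) ≃* S.N) := by
  classical
  rintro ⟨e⟩
  -- representatives of classes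
  obtain ⟨rep, hrep⟩ : ∃ rep : ZMod 7 × ZMod 7 × ℤ → G, ∀ g, S.cl (rep (S.cl g)) = S.cl g := by
    refine ⟨fun c => if h : ∃ g, S.cl g = c then h.choose else 1, fun g => ?_⟩
    have h : ∃ g', S.cl g' = S.cl g := ⟨g, rfl⟩
    simp only [h, dif_pos]
    exact h.choose_spec
  let C0 : Set (ZMod 7 × ZMod 7 × ℤ) := {c | 0 ≤ clev c ∧ clev c ≤ 0}
  have hC0 : C0.Finite := clev_finite 0 0
  -- the finite set of prescribed values
  let A : Set (G × F3) := ((fun x : (ZMod 7 × ZMod 7 × ℤ) × G =>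
      (((rep x.1)⁻¹ * x.2 * rep x.1, 1) : G × F3)) '' (C0 ×ˢ S.Z7)) ∪
    {(S.xx, FreeGroup.of 0), (S.eL, FreeGroup.of 1), (S.eR, FreeGroup.of 2)}
  have hA : A.Finite := by
    refine ((hC0.prod S.Z7_finite).image _).union ?_
    exact Set.toFinite _
  let T : Set (S.N × F3) := (fun x : S.N × F3 => ((x.1 : G), x.2)) ⁻¹' A
  have hT : T.Finite := by
    refine hA.preimage ?_
    rintro ⟨⟨a, ha⟩, r⟩ _ ⟨⟨b, hb⟩, s⟩ _ h
    simp only [Prod.mk.injEq] at h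
    obtain ⟨h1, h2⟩ := h
    subst h1
    subst h2
    rfl
  have hT1 : ∀ x ∈ T, q1 x.2 = S.h1 x.1 ∧ q2 x.2 = S.h2 x.1 := by
    rintro ⟨⟨a, ha⟩, r⟩ hx
    have hx' : (a, r) ∈ A := hx
    show q1 r = (S.st1 a).2 ∧ q2 r = (S.st2 a).2
    rcases hx' with ⟨⟨c, z⟩, ⟨-, hz⟩, hxx⟩ | hx'
    · simp only [Prod.mk.injEq] at hxx
      obtain ⟨rfl, rfl⟩ := hxx
      have hp : S.p ((rep c)⁻¹ * z * rep c) = 1 := by
        rw [map_mul, map_mul, S.p_Z7 hz, map_inv]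
        simp
      rw [st1, st2, hp]
      simp
    · rcases hx' with hx' | hx' | hx'
      · simp only [Prod.mk.injEq] at hx'
        obtain ⟨rfl, rfl⟩ := hx'
        rw [st1_xx, st2_xx]
        simp [q1, q2]
      · simp only [Prod.mk.injEq] at hx'
        obtain ⟨rfl, rfl⟩ := hx'
        rw [st1_eL, st2_eL]
        simp [q1, q2]
      · simp only [Set.mem_singleton_iff, Prod.mk.injEq] at hx'
        obtain ⟨rfl, rfl⟩ := hx'
        rw [st1_eR, st2_eR]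
        simp [q1, q2]
  obtain ⟨J, hJ⟩ := lifting S.h1 S.h2 (fun n => n.2.2.2) rels e T hT hT1
  obtain ⟨φ, hφ⟩ := hJ J (le_refl _)
  -- the kernel as a subgroup of `G`
  let K : Subgroup G := φ.ker.map S.N.subtype
  have hK : ∀ (a : G) (ha : a ∈ S.N), a ∈ K ↔ φ ⟨a, ha⟩ = 1 := by
    intro a ha
    constructor
    · rintro ⟨b, hb, hb'⟩
      have : b = ⟨a, ha⟩ := Subtype.ext hb'
      rw [← this]
      exact hb
    · intro h
      exact ⟨⟨a, ha⟩, h, rfl⟩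
  have hbase : ∀ a, S.morse.lev a = 0 → Good S.L S.R K a := by
    intro a ha
    have key : ∀ z ∈ S.Z7, a⁻¹ * z * a ∈ K := by
      intro z hz
      have hn : (rep (S.cl a))⁻¹ * a ∈ S.N := (S.cl_iff _ _).1 (hrep a)
      have hz1 : (rep (S.cl a))⁻¹ * z * rep (S.cl a) ∈ S.N := by
        apply S.mem_N_of_p
        rw [map_mul, map_mul, S.p_Z7 hz, map_inv]
        simp
      have hcl : S.cl a ∈ C0 := by
        have := S.lev_eq a
        rw [ha] at this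
        exact ⟨this.le, this.ge⟩
      have hφz : φ ⟨(rep (S.cl a))⁻¹ * z * rep (S.cl a), hz1⟩ = 1 := by
        have hmem : ((⟨(rep (S.cl a))⁻¹ * z * rep (S.cl a), hz1⟩, 1) : S.N × F3) ∈ T :=
          Or.inl ⟨(S.cl a, z), ⟨hcl, hz⟩, rfl⟩
        have := hφ _ hmem
        rw [this, map_one]
      have hconj : a⁻¹ * z * a = ((rep (S.cl a))⁻¹ * a)⁻¹ *
          ((rep (S.cl a))⁻¹ * z * rep (S.cl a)) * ((rep (S.cl a))⁻¹ * a) := by group
      have hmemN : a⁻¹ * z * a ∈ S.N := by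
        rw [hconj]
        exact mul_mem (mul_mem (inv_mem hn) hz1) hn
      rw [hK _ hmemN]
      have e1 : (⟨a⁻¹ * z * a, hmemN⟩ : S.N) = (⟨(rep (S.cl a))⁻¹ * a, hn⟩ : S.N)⁻¹ *
          ⟨(rep (S.cl a))⁻¹ * z * rep (S.cl a), hz1⟩ * ⟨(rep (S.cl a))⁻¹ * a, hn⟩ :=
        Subtype.ext hconj
      rw [e1, map_mul, map_mul, hφz, map_inv]
      simp
    exact ⟨fun i => key _ (Or.inl ⟨i, rfl⟩), fun j => key _ (Or.inr ⟨j, rfl⟩)⟩
  have hgood := good_all S.L S.R K S.morse.lev 0 S.low S.up S.goodPair hbase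
  have hM : S.M ≤ K := by
    rw [M, Subgroup.normalClosure, Subgroup.closure_le]
    intro z hz
    obtain ⟨y, hy, hyz⟩ := Group.mem_conjugatesOfSet_iff.1 hz
    obtain ⟨c, rfl⟩ := isConj_iff.1 hyz
    have hg := hgood c⁻¹
    rcases hy with ⟨i, rfl⟩ | ⟨j, rfl⟩
    · have := hg.1 i
      rw [inv_inv] at this
      exact this
    · have := hg.2 j
      rw [inv_inv] at this
      exact this
  have hk := hM (S.kappa_mem (J + 1))
  have hx : φ ⟨S.xx, S.xx_mem⟩ = shiftZ := by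
    have hmem : ((⟨S.xx, S.xx_mem⟩, FreeGroup.of 0) : S.N × F3) ∈ T := Or.inr (Or.inl rfl)
    have := hφ _ hmem
    rw [this]
    simp [rho]
  have he : φ ⟨S.eL, S.eL_mem⟩ = Equiv.swap 0 1 := by
    have hmem : ((⟨S.eL, S.eL_mem⟩, FreeGroup.of 1) : S.N × F3) ∈ T :=
      Or.inr (Or.inr (Or.inl rfl))
    have := hφ _ hmem
    rw [this]
    simp [rho]
  have ht : φ ⟨S.eR, S.eR_mem⟩ = Equiv.swap J (J + 1) := by
    have hmem : ((⟨S.eR, S.eR_mem⟩, FreeGroup.of 2) : S.N × F3) ∈ T :=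
      Or.inr (Or.inr (Or.inr rfl))
    have := hφ _ hmem
    rw [this]
    simp [rho]
  apply not_commute J
  let x : S.N := ⟨S.xx, S.xx_mem⟩
  let a : S.N := ⟨S.eL, S.eL_mem⟩
  let b : S.N := ⟨S.eR, S.eR_mem⟩
  have hk2 : φ ((x ^ (J + 1) * a * (x ^ (J + 1))⁻¹) * b * (x ^ (J + 1) * a * (x ^ (J + 1))⁻¹)⁻¹ *
      b⁻¹) = 1 := by
    have := (hK _ ((x ^ (J + 1) * a * (x ^ (J + 1))⁻¹) * b *
      (x ^ (J + 1) * a * (x ^ (J + 1))⁻¹)⁻¹ * b⁻¹).2).1 (by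
        simpa [x, a, b] using hk)
    exact this
  have hx' : φ x = shiftZ := hx
  have ha' : φ a = Equiv.swap 0 1 := he
  have hb' : φ b = Equiv.swap J (J + 1) := ht
  have hc : φ (x ^ (J + 1) * a * (x ^ (J + 1))⁻¹) =
      shiftZ ^ (J + 1) * Equiv.swap (0 : ℤ) 1 * (shiftZ ^ (J + 1))⁻¹ := by
    rw [map_mul, map_mul, map_inv, map_zpow, hx', ha']
  rw [map_mul, map_mul, map_mul, map_inv φ (x ^ (J + 1) * a * (x ^ (J + 1))⁻¹), hc,
    map_inv, hb', mul_inv_eq_one, mul_inv_eq_iff_eq_mul] at hk2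
  exact hk2

end Setting

end Pool.Agent.MP_4804cd_al
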