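import Pool.Agent.MP_4804cd_al.HigmanMap
import Pool.Agent.MP_4804cd_al.NotFP

/-!
The Higman group has a finitely generated subgroup that is not finitely presented.
-/

set_option autoImplicit false

namespace Pool.Agent.MP_4804cd_al

theorem double_conj {G : Type*} [Group G] {a b : G} (h : b⁻¹ * a * b = a ^ 2) :
    (b ^ 3)⁻¹ * a ^ 3 * b ^ 3 = (a ^ 3) ^ 8 := by
  have h1 : ∀ k : ℕ, b⁻¹ * a ^ k * b = a ^ (2 * k) := by
    intro k
    have h2 : b⁻¹ * a ^ k * b = (b⁻¹ * a * b) ^ k := by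
      have := conj_pow (a := b⁻¹) (b := a) (i := k)
      rw [inv_inv] at this
      exact this.symm
    rw [h2, h, ← pow_mul]
  have e : (b ^ 3)⁻¹ * a ^ 3 * b ^ 3 = b⁻¹ * (b⁻¹ * (b⁻¹ * a ^ 3 * b) * b) * b := by
    have hb : b ^ 3 = b * b * b := by rw [pow_succ, pow_two]
    rw [hb]
    simp only [mul_inv_rev, mul_assoc]
  rw [e, h1, h1, h1, ← pow_mul]

/-- cubes as elements of the subgroup -/
def gg (i : Fin 4) : GG := ⟨gx i ^ 3, gx3_mem i⟩

theorem gg_rel (i : Fin 4) : (gg (i + 1))⁻¹ * gg i * gg (i + 1) = gg i ^ 8 := by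
  apply Subtype.ext
  show (gx (i + 1) ^ 3)⁻¹ * gx i ^ 3 * gx (i + 1) ^ 3 = (gx i ^ 3) ^ 8
  exact double_conj (gx_rel i)

theorem gg_gen : Subgroup.closure (Set.range gg) = ⊤ := by
  have h : ((Subtype.val : GG → Hig) ⁻¹' (Set.range fun i => gx i ^ 3)) = Set.range gg := by
    ext x
    constructor
    · rintro ⟨i, hi⟩
      exact ⟨i, Subtype.ext hi⟩
    · rintro ⟨i, rfl⟩
      exact ⟨i, rfl⟩
  rw [← h]
  exact Subgroup.closure_closure_coe_preimage

theorem yy_seven (i : Fin 4) : yy i ^ 7 = 1 := by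
  fin_cases i
  · ext1
    · exact pa_seven
    · exact one_pow 7
  · ext1
    · exact one_pow 7
    · exact pa_seven
  · ext1
    · exact pc_seven
    · exact one_pow 7
  · ext1
    · exact one_pow 7
    · exact pc_seven

theorem yy_comm (i : Fin 4) : Commute (yy i) (yy (i + 1)) := by
  fin_cases i
  · show ((pa, 1) : PP) * (1, pa) = (1, pa) * (pa, 1)
    simp
  · show ((1, pa) : PP) * (pc, 1) = (pc, 1) * (1, pa)
    simp
  · show ((pc, 1) : PP) * (1, pc) = (1, pc) * (pc, 1)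
    simp
  · show ((1, pc) : PP) * (pa, 1) = (pa, 1) * (1, pc)
    simp

/-- The Higman group is not coherent. -/
theorem incoherent : ∃ K : Subgroup Hig, K.FG ∧ ∀ (n : ℕ) (rels : Finset (FreeGroup (Fin n))),
    ¬ Nonempty (PresentedGroup (rels : Set (FreeGroup (Fin n))) ≃* K) := by
  obtain ⟨p, hp⟩ := exists_hom yy yy_seven yy_comm
  let S : Setting GG := ⟨gg, gg_gen, gg_rel, p, hp⟩
  have hfg : (S.N.map GG.subtype).FG := by
    obtain ⟨T, hT, hTf⟩ := (Subgroup.fg_iff _).1 S.N_fg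
    refine (Subgroup.fg_iff _).2 ⟨GG.subtype '' T, ?_, hTf.image _⟩
    rw [← hT, MonoidHom.map_closure]
  refine ⟨S.N.map GG.subtype, hfg, fun n rels => ?_⟩
  rintro ⟨e⟩
  refine S.not_fp rels ⟨e.trans ?_⟩
  exact (S.N.equivMapOfInjective GG.subtype GG.subtype_injective).symm

end Pool.Agent.MP_4804cd_al
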