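import Pool.Agent.MP_4804cd_al.Level2

/-!
The Higman group, the subgroup generated by the cubes of the generators, and the
homomorphisms defined on it.
-/

set_option autoImplicit false

namespace Pool.Agent.MP_4804cd_al

open Monoid Function

/-- the Higman group -/
abbrev Hig : Type := PresentedGroup (Set.range (fun i : Fin 4 =>
        (FreeGroup.of (i + 1))⁻¹ * FreeGroup.of i * FreeGroup.of (i + 1) * (FreeGroup.of i ^ 2)⁻¹))

/-- generators -/
def gx (i : Fin 4) : Hig := PresentedGroup.of i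

theorem gx_rel (i : Fin 4) : (gx (i + 1))⁻¹ * gx i * gx (i + 1) = gx i ^ 2 := by
  have h : PresentedGroup.mk (Set.range (fun i : Fin 4 =>
        (FreeGroup.of (i + 1))⁻¹ * FreeGroup.of i * FreeGroup.of (i + 1) * (FreeGroup.of i ^ 2)⁻¹))
      ((FreeGroup.of (i + 1))⁻¹ * FreeGroup.of i * FreeGroup.of (i + 1) * (FreeGroup.of i ^ 2)⁻¹)
      = 1 := by
    apply PresentedGroup.one_of_mem
    exact ⟨i, rfl⟩
  rw [map_mul, map_mul, map_mul, map_inv, map_inv, map_pow] at h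
  exact mul_inv_eq_one.1 h

/-- images of the generators in the second level group -/
def XX : Fin 4 → HH
  | 0 => PushoutI.of 0 (PushoutI.of 0 Aff.u)
  | 1 => PushoutI.of 0 (PushoutI.of 0 Aff.v)
  | 2 => PushoutI.of 1 (PushoutI.of 0 Aff.u)
  | 3 => PushoutI.of 1 (PushoutI.of 0 Aff.v)

theorem mid_eq : (PushoutI.of 0 Aff.v : AA) = PushoutI.of 1 Aff.u := by
  have h0 := PushoutI.of_apply_eq_base phi1 0 (Multiplicative.ofAdd (1 : ℤ))
  have h1 := PushoutI.of_apply_eq_base phi1 1 (Multiplicative.ofAdd (1 : ℤ))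
  have e0 : phi1 0 (Multiplicative.ofAdd (1 : ℤ)) = Aff.v := by
    rw [phi1_apply]
    simp [bgen]
  have e1 : phi1 1 (Multiplicative.ofAdd (1 : ℤ)) = Aff.u := by
    rw [phi1_apply]
    simp [bgen]
  rw [e0] at h0
  rw [e1] at h1
  rw [h0, h1]

theorem XX0_eq : XX 0 = (PushoutI.of 1 (PushoutI.of 1 Aff.v : AA) : HH) := by
  have h0 := PushoutI.of_apply_eq_base phi2 0 (fof 0 (Multiplicative.ofAdd (1 : ℤ)))
  have h1 := PushoutI.of_apply_eq_base phi2 1 (fof 0 (Multiplicative.ofAdd (1 : ℤ)))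
  have e0 : phi2 0 (fof 0 (Multiplicative.ofAdd (1 : ℤ))) = PushoutI.of 0 Aff.u := by
    show phiF (fof 0 _) = _
    rw [fof, phiF_of]
    simp [fgen]
  have e1 : phi2 1 (fof 0 (Multiplicative.ofAdd (1 : ℤ))) = PushoutI.of 1 Aff.v := by
    show phiF (sw (fof 0 _)) = _
    rw [sw_fof, fof, phiF_of]
    simp [fgen]
  rw [e0] at h0
  rw [e1] at h1
  show (PushoutI.of 0 (PushoutI.of 0 Aff.u : AA) : HH) = _
  rw [h0, h1]

theorem XX2_eq : XX 2 = (PushoutI.of 0 (PushoutI.of 1 Aff.v : AA) : HH) := by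
  have h0 := PushoutI.of_apply_eq_base phi2 0 (fof 1 (Multiplicative.ofAdd (1 : ℤ)))
  have h1 := PushoutI.of_apply_eq_base phi2 1 (fof 1 (Multiplicative.ofAdd (1 : ℤ)))
  have e0 : phi2 0 (fof 1 (Multiplicative.ofAdd (1 : ℤ))) = PushoutI.of 1 Aff.v := by
    show phiF (fof 1 _) = _
    rw [fof, phiF_of]
    simp [fgen]
  have e1 : phi2 1 (fof 1 (Multiplicative.ofAdd (1 : ℤ))) = PushoutI.of 0 Aff.u := by
    show phiF (sw (fof 1 _)) = _
    rw [sw_fof, fof, phiF_of]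
    simp [fgen]
  rw [e0] at h0
  rw [e1] at h1
  show (PushoutI.of 1 (PushoutI.of 0 Aff.u : AA) : HH) = _
  rw [h1, h0]

theorem XX_rel (i : Fin 4) : (XX (i + 1))⁻¹ * XX i * XX (i + 1) = XX i ^ 2 := by
  fin_cases i
  · show (XX 1)⁻¹ * XX 0 * XX 1 = XX 0 ^ 2
    simp only [XX, ← map_inv, ← map_mul, ← map_pow, Aff.rel]
  · show (XX 2)⁻¹ * XX 1 * XX 2 = XX 1 ^ 2
    rw [XX2_eq]
    simp only [XX, mid_eq, ← map_inv, ← map_mul, ← map_pow, Aff.rel]
  · show (XX 3)⁻¹ * XX 2 * XX 3 = XX 2 ^ 2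
    simp only [XX, ← map_inv, ← map_mul, ← map_pow, Aff.rel]
  · show (XX 0)⁻¹ * XX 3 * XX 0 = XX 3 ^ 2
    rw [XX0_eq]
    simp only [XX, mid_eq, ← map_inv, ← map_mul, ← map_pow, Aff.rel]

/-- map from the Higman group to the second level group -/
def toHH : Hig →* HH :=
  PresentedGroup.toGroup (f := XX) (by
    rintro _ ⟨i, rfl⟩
    simp only [map_mul, map_inv, map_pow, FreeGroup.lift_apply_of]
    rw [XX_rel, mul_inv_cancel])

theorem toHH_gx (i : Fin 4) : toHH (gx i) = XX i := by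
  simp [toHH, gx]

/-- subgroup generated by the cubes -/
def GG : Subgroup Hig := Subgroup.closure (Set.range fun i => gx i ^ 3)

theorem gx3_mem (i : Fin 4) : gx i ^ 3 ∈ GG := Subgroup.subset_closure ⟨i, rfl⟩

theorem XX3_mem (i : Fin 4) : XX i ^ 3 ∈ HH3 := by
  fin_cases i
  · show (PushoutI.of 0 (PushoutI.of 0 Aff.u) : HH) ^ 3 ∈ HH3
    rw [← map_pow, ← map_pow]
    exact of_mem_HH3 0 _ u3_mem
  · show (PushoutI.of 0 (PushoutI.of 0 Aff.v) : HH) ^ 3 ∈ HH3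
    rw [← map_pow, ← map_pow]
    exact of_mem_HH3 0 _ m3_mem
  · show (PushoutI.of 1 (PushoutI.of 0 Aff.u) : HH) ^ 3 ∈ HH3
    rw [← map_pow, ← map_pow]
    exact of_mem_HH3 1 _ u3_mem
  · show (PushoutI.of 1 (PushoutI.of 0 Aff.v) : HH) ^ 3 ∈ HH3
    rw [← map_pow, ← map_pow]
    exact of_mem_HH3 1 _ m3_mem

theorem toHH_mem : ∀ g ∈ GG, toHH g ∈ HH3 := by
  intro g hg
  have : GG ≤ HH3.comap toHH := by
    rw [GG, Subgroup.closure_le]
    rintro _ ⟨i, rfl⟩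
    show toHH (gx i ^ 3) ∈ HH3
    rw [map_pow, toHH_gx]
    exact XX3_mem i
  exact this hg

/-- Homomorphisms on the subgroup generated by the cubes. -/
theorem exists_hom {Y : Type*} [Group Y] (y : Fin 4 → Y) (h7 : ∀ i, y i ^ 7 = 1)
    (hc : ∀ i, Commute (y i) (y (i + 1))) :
    ∃ p : GG →* Y, ∀ i, p ⟨gx i ^ 3, gx3_mem i⟩ = y i := by
  have h30 : Commute (y 3) (y 0) := hc 3
  refine ⟨(psi2 (y 0) (y 1) (y 2) (y 3) (h7 0) (h7 1) (h7 2) (h7 3) (hc 0) (hc 1) (hc 2)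
    h30).comp (((toHH.comp GG.subtype).codRestrict HH3 (fun g => toHH_mem g g.2))), ?_⟩
  intro i
  have key : ∀ (j : Fin 2) (g : AA) (hg : g ∈ AA3), toHH (gx i ^ 3) = PushoutI.of j g →
      ((psi2 (y 0) (y 1) (y 2) (y 3) (h7 0) (h7 1) (h7 2) (h7 3) (hc 0) (hc 1) (hc 2)
        h30).comp (((toHH.comp GG.subtype).codRestrict HH3 (fun g => toHH_mem g g.2))))
        ⟨gx i ^ 3, gx3_mem i⟩ =
      fac2 (y 0) (y 1) (y 2) (y 3) (h7 0) (h7 1) (h7 2) (h7 3) (hc 0) (hc 1) (hc 2)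
        h30 j ⟨g, hg⟩ := by
    intro j g hg h
    have e : ((toHH.comp GG.subtype).codRestrict HH3 (fun g => toHH_mem g g.2))
        ⟨gx i ^ 3, gx3_mem i⟩ = ⟨PushoutI.of j g, of_mem_HH3 j g hg⟩ := Subtype.ext h
    rw [MonoidHom.comp_apply, e, psi2_of]
  fin_cases i
  · refine (key 0 (PushoutI.of 0 (Aff.u ^ (3 : ℤ))) u3_mem ?_).trans ?_
    · rw [map_pow, toHH_gx]
      show (PushoutI.of 0 (PushoutI.of 0 Aff.u) : HH) ^ 3 = _
      rw [← map_pow, ← map_pow]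
      rfl
    · exact psi1_of0 _ _ _ _ _ _ _ _ _
  · refine (key 0 (PushoutI.of 0 (Aff.v ^ (3 : ℤ))) m3_mem ?_).trans ?_
    · rw [map_pow, toHH_gx]
      show (PushoutI.of 0 (PushoutI.of 0 Aff.v) : HH) ^ 3 = _
      rw [← map_pow, ← map_pow]
      rfl
    · exact psi1_mid _ _ _ _ _ _ _ _ _
  · refine (key 1 (PushoutI.of 0 (Aff.u ^ (3 : ℤ))) u3_mem ?_).trans ?_
    · rw [map_pow, toHH_gx]
      show (PushoutI.of 1 (PushoutI.of 0 Aff.u) : HH) ^ 3 = _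
      rw [← map_pow, ← map_pow]
      rfl
    · exact psi1_of0 _ _ _ _ _ _ _ _ _
  · refine (key 1 (PushoutI.of 0 (Aff.v ^ (3 : ℤ))) m3_mem ?_).trans ?_
    · rw [map_pow, toHH_gx]
      show (PushoutI.of 1 (PushoutI.of 0 Aff.v) : HH) ^ 3 = _
      rw [← map_pow, ← map_pow]
      rfl
    · exact psi1_mid _ _ _ _ _ _ _ _ _

end Pool.Agent.MP_4804cd_al
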