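import Mathlib

/-!
Consequences of the relation `b⁻¹ a b = a ^ 8` and propagation of kernel membership.
-/

set_option autoImplicit false

namespace Pool.Agent.MP_4804cd_al

section BS

variable {G : Type*} [Group G] {a b : G}

theorem bs_conj (h : b⁻¹ * a * b = a ^ 8) (n : ℕ) (k : ℤ) :
    (b ^ n)⁻¹ * a ^ k * b ^ n = a ^ (k * 8 ^ n) := by
  induction n generalizing k with
  | zero => simp
  | succ n ih =>
    have h1 : b⁻¹ * a ^ k * b = a ^ (k * 8) := by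
      have : b⁻¹ * a ^ k * b = (b⁻¹ * a * b) ^ k := by
        have := conj_zpow (a := b⁻¹) (b := a) (i := k)
        rw [inv_inv] at this
        exact this.symm
      rw [this, h, ← zpow_natCast, ← zpow_mul]
      congr 1
      push_cast
      ring
    calc (b ^ (n + 1))⁻¹ * a ^ k * b ^ (n + 1)
        = (b ^ n)⁻¹ * (b⁻¹ * a ^ k * b) * b ^ n := by
          rw [pow_succ']; group
      _ = a ^ (k * 8 ^ (n + 1)) := by rw [h1, ih]; congr 1; ring

/-- the subgroup generated by the seventh powers -/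
def V7 (a b : G) : Subgroup G := Subgroup.closure {a ^ 7, b ^ 7}

theorem a7_mem (a b : G) : a ^ 7 ∈ V7 a b := Subgroup.subset_closure (by simp)
theorem b7_mem (a b : G) : b ^ 7 ∈ V7 a b := Subgroup.subset_closure (by simp)

theorem V7_comm (a b : G) : V7 a b = V7 b a := by
  rw [V7, V7, Set.pair_comm]

theorem a7z_mem (a b : G) (k : ℤ) : a ^ (7 * k) ∈ V7 a b := by
  have : a ^ (7 * k) = (a ^ 7) ^ k := by
    rw [zpow_mul]
    norm_cast
  rw [this]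
  exact zpow_mem (a7_mem a b) k

theorem conj_le {V : Subgroup G} {c x y : G} (hV : V = Subgroup.closure {x, y})
    (h1 : c⁻¹ * x * c ∈ V) (h2 : c⁻¹ * y * c ∈ V) : ∀ v ∈ V, c⁻¹ * v * c ∈ V := by
  intro v hv
  have hle : V ≤ V.comap (MulAut.conj c⁻¹).toMonoidHom := by
    conv_lhs => rw [hV]
    rw [Subgroup.closure_le]
    rintro z (rfl | hz)
    · show (MulAut.conj c⁻¹) z ∈ V
      simpa using h1
    · rw [Set.mem_singleton_iff] at hz
      subst hz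
      show (MulAut.conj c⁻¹) z ∈ V
      simpa using h2
  have := hle hv
  have h3 : (MulAut.conj c⁻¹) v ∈ V := this
  simpa using h3

theorem bs_facts (h : b⁻¹ * a * b = a ^ 8) :
    (∀ v ∈ V7 a b, a⁻¹ * v * a ∈ V7 a b) ∧ (∀ v ∈ V7 a b, a * v * a⁻¹ ∈ V7 a b) ∧
    (∀ v ∈ V7 a b, b⁻¹ * v * b ∈ V7 a b) ∧ (∀ v ∈ V7 a b, b * v * b⁻¹ ∈ V7 a b) ∧
    a * b * a⁻¹ * b⁻¹ ∈ V7 a b := by
  have e7 := bs_conj h 7
  have e6 := bs_conj h 6
  have e1 := bs_conj h 1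
  -- conjugating `b ^ 7` by `a`
  have k1 : a⁻¹ * b ^ 7 * a ∈ V7 a b := by
    have : a⁻¹ * b ^ 7 * a = b ^ 7 * a ^ (7 * (-299593) : ℤ) := by
      have h1 := e7 (-1)
      calc a⁻¹ * b ^ 7 * a = b ^ 7 * ((b ^ 7)⁻¹ * a ^ (-1 : ℤ) * b ^ 7) * a := by group
        _ = b ^ 7 * (a ^ ((-1 : ℤ) * 8 ^ 7) * a ^ (1 : ℤ)) := by rw [h1, zpow_one, mul_assoc]
        _ = _ := by rw [← zpow_add]; norm_num
    rw [this]
    exact mul_mem (b7_mem a b) (a7z_mem a b _)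
  have k2 : a * b ^ 7 * a⁻¹ ∈ V7 a b := by
    have : a * b ^ 7 * a⁻¹ = b ^ 7 * a ^ (7 * (299593) : ℤ) := by
      have h1 := e7 1
      calc a * b ^ 7 * a⁻¹ = b ^ 7 * ((b ^ 7)⁻¹ * a ^ (1 : ℤ) * b ^ 7) * a⁻¹ := by group
        _ = b ^ 7 * (a ^ ((1 : ℤ) * 8 ^ 7) * a ^ (-1 : ℤ)) := by
          rw [h1, mul_assoc, zpow_neg, zpow_one]
        _ = _ := by rw [← zpow_add]; norm_num
    rw [this]
    exact mul_mem (b7_mem a b) (a7z_mem a b _)
  have k3 : b⁻¹ * a ^ 7 * b ∈ V7 a b := by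
    have h1 := e1 7
    have : b⁻¹ * a ^ 7 * b = a ^ (7 * 8 : ℤ) := by
      simpa using h1
    rw [this]
    exact a7z_mem a b _
  have k4 : b * a ^ 7 * b⁻¹ ∈ V7 a b := by
    have h1 := e6 7
    have : b * a ^ 7 * b⁻¹ = b ^ 7 * (a ^ (7 * 8 ^ 6 : ℤ)) * (b ^ 7)⁻¹ := by
      rw [← h1]
      have e : a ^ (7 : ℤ) = a ^ 7 := by norm_cast
      rw [e]
      group
    rw [this]
    exact mul_mem (mul_mem (b7_mem a b) (a7z_mem a b _)) (inv_mem (b7_mem a b))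
  have ka : a⁻¹ * a ^ 7 * a ∈ V7 a b := by
    have : a⁻¹ * a ^ 7 * a = a ^ 7 := by group
    rw [this]; exact a7_mem a b
  have ka' : a * a ^ 7 * a⁻¹ ∈ V7 a b := by
    have : a * a ^ 7 * a⁻¹ = a ^ 7 := by group
    rw [this]; exact a7_mem a b
  have kb : b⁻¹ * b ^ 7 * b ∈ V7 a b := by
    have : b⁻¹ * b ^ 7 * b = b ^ 7 := by group
    rw [this]; exact b7_mem a b
  have kb' : b * b ^ 7 * b⁻¹ ∈ V7 a b := by
    have : b * b ^ 7 * b⁻¹ = b ^ 7 := by group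
    rw [this]; exact b7_mem a b
  refine ⟨conj_le rfl ka k1, ?_, conj_le rfl k3 kb, ?_, ?_⟩
  · have := conj_le (V := V7 a b) (c := a⁻¹) rfl (by simpa using ka') (by simpa using k2)
    intro v hv
    simpa using this v hv
  · have := conj_le (V := V7 a b) (c := b⁻¹) rfl (by simpa using k4) (by simpa using kb')
    intro v hv
    simpa using this v hv
  · have : a * b * a⁻¹ * b⁻¹ = b * a ^ 7 * b⁻¹ := by
      have h2 : a * b = b * a ^ 8 := by rw [← h]; group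
      rw [h2]
      group
    rw [this]
    exact k4

end BS

section Pairs

variable {G : Type*} [Group G]

/-- `a` and `b` normalise `V7 a b` and commute modulo it. -/
structure GoodPair (a b : G) : Prop where
  ha : ∀ v ∈ V7 a b, a⁻¹ * v * a ∈ V7 a b
  ha' : ∀ v ∈ V7 a b, a * v * a⁻¹ ∈ V7 a b
  hb : ∀ v ∈ V7 a b, b⁻¹ * v * b ∈ V7 a b
  hb' : ∀ v ∈ V7 a b, b * v * b⁻¹ ∈ V7 a b
  comm : a * b * a⁻¹ * b⁻¹ ∈ V7 a b

theorem GoodPair.of_rel {a b : G} (h : b⁻¹ * a * b = a ^ 8) : GoodPair a b :=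
  ⟨(bs_facts h).1, (bs_facts h).2.1, (bs_facts h).2.2.1, (bs_facts h).2.2.2.1,
    (bs_facts h).2.2.2.2⟩

theorem GoodPair.symm {a b : G} (h : GoodPair a b) : GoodPair b a := by
  refine ⟨?_, ?_, ?_, ?_, ?_⟩
  · rw [V7_comm]; exact h.hb
  · rw [V7_comm]; exact h.hb'
  · rw [V7_comm]; exact h.ha
  · rw [V7_comm]; exact h.ha'
  · rw [V7_comm]
    have := inv_mem h.comm
    simpa [mul_assoc] using this

theorem GoodPair.normA {a b : G} (h : GoodPair a b) (k : ℤ) :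
    ∀ v ∈ V7 a b, a ^ k * v * (a ^ k)⁻¹ ∈ V7 a b := by
  induction k using Int.induction_on with
  | zero => intro v hv; simpa using hv
  | succ n ih =>
    intro v hv
    have := h.ha' _ (ih v hv)
    have e : a ^ ((n : ℤ) + 1) * v * (a ^ ((n : ℤ) + 1))⁻¹ =
        a * (a ^ (n : ℤ) * v * (a ^ (n : ℤ))⁻¹) * a⁻¹ := by
      rw [add_comm, zpow_add, zpow_one]; group
    rw [e]; exact this
  | pred n ih =>
    intro v hv
    have := h.ha _ (ih v hv)
    have e : a ^ (-(n : ℤ) - 1) * v * (a ^ (-(n : ℤ) - 1))⁻¹ =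
        a⁻¹ * (a ^ (-(n : ℤ)) * v * (a ^ (-(n : ℤ)))⁻¹) * a := by
      rw [sub_eq_add_neg, add_comm, zpow_add, zpow_neg_one]; group
    rw [e]; exact this

theorem GoodPair.commA {a b : G} (h : GoodPair a b) (k : ℤ) :
    a ^ k * b * (a ^ k)⁻¹ * b⁻¹ ∈ V7 a b := by
  induction k using Int.induction_on with
  | zero => simp
  | succ n ih =>
    have e : a ^ ((n : ℤ) + 1) * b * (a ^ ((n : ℤ) + 1))⁻¹ * b⁻¹ =
        (a * (a ^ (n : ℤ) * b * (a ^ (n : ℤ))⁻¹ * b⁻¹) * a⁻¹) * (a * b * a⁻¹ * b⁻¹) := by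
      rw [add_comm, zpow_add, zpow_one]; group
    rw [e]
    exact mul_mem (h.ha' _ ih) h.comm
  | pred n ih =>
    have e : a ^ (-(n : ℤ) - 1) * b * (a ^ (-(n : ℤ) - 1))⁻¹ * b⁻¹ =
        (a⁻¹ * ((a ^ (-(n : ℤ)) * b * (a ^ (-(n : ℤ)))⁻¹ * b⁻¹) * (a * b * a⁻¹ * b⁻¹)⁻¹) * a) := by
      rw [sub_eq_add_neg, add_comm, zpow_add, zpow_neg_one]; group
    rw [e]
    exact h.ha _ (mul_mem ih (inv_mem h.comm))

/-- powers commute modulo `V7 a b`. -/
theorem GoodPair.commAB {a b : G} (h : GoodPair a b) (k m : ℤ) :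
    a ^ k * b ^ m * (a ^ k)⁻¹ * (b ^ m)⁻¹ ∈ V7 a b := by
  have hB : ∀ n : ℤ, ∀ v ∈ V7 a b, b ^ n * v * (b ^ n)⁻¹ ∈ V7 a b := by
    intro n
    have := h.symm.normA n
    rwa [V7_comm] at this
  induction m using Int.induction_on with
  | zero => simp
  | succ n ih =>
    have e : a ^ k * b ^ ((n : ℤ) + 1) * (a ^ k)⁻¹ * (b ^ ((n : ℤ) + 1))⁻¹ =
        (a ^ k * b ^ (n : ℤ) * (a ^ k)⁻¹ * (b ^ (n : ℤ))⁻¹) *
        (b ^ (n : ℤ) * (a ^ k * b * (a ^ k)⁻¹ * b⁻¹) * (b ^ (n : ℤ))⁻¹) := by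
      rw [zpow_add, zpow_one]; group
    rw [e]
    exact mul_mem ih (hB _ _ (h.commA k))
  | pred n ih =>
    have e : a ^ k * b ^ (-(n : ℤ) - 1) * (a ^ k)⁻¹ * (b ^ (-(n : ℤ) - 1))⁻¹ =
        (a ^ k * b ^ (-(n : ℤ)) * (a ^ k)⁻¹ * (b ^ (-(n : ℤ)))⁻¹) *
        (b ^ (-(n : ℤ) - 1) * (a ^ k * b * (a ^ k)⁻¹ * b⁻¹)⁻¹ * (b ^ (-(n : ℤ) - 1))⁻¹) := by
      rw [zpow_sub_one]; group
    rw [e]
    exact mul_mem ih (hB _ _ (inv_mem (h.commA k)))

end Pairs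

section Propagate

variable {G : Type*} [Group G] (L R : Fin 2 → G) (hLR : ∀ i j, GoodPair (L i) (R j))
  (K : Subgroup G)

/-- all seventh powers conjugated by `g` lie in `K` -/
def Good (g : G) : Prop :=
  (∀ i, g⁻¹ * L i ^ 7 * g ∈ K) ∧ ∀ j, g⁻¹ * R j ^ 7 * g ∈ K

theorem conj_V7_mem {a b g : G} (h1 : g⁻¹ * a ^ 7 * g ∈ K) (h2 : g⁻¹ * b ^ 7 * g ∈ K) :
    ∀ v ∈ V7 a b, g⁻¹ * v * g ∈ K := by
  intro v hv
  have hle : V7 a b ≤ K.comap (MulAut.conj g⁻¹).toMonoidHom := by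
    rw [V7, Subgroup.closure_le]
    rintro z (rfl | hz)
    · show (MulAut.conj g⁻¹) _ ∈ K
      simpa using h1
    · rw [Set.mem_singleton_iff] at hz
      subst hz
      show (MulAut.conj g⁻¹) _ ∈ K
      simpa using h2
  have h3 : (MulAut.conj g⁻¹) v ∈ K := hle hv
  simpa using h3

theorem good_move {a b : G} (hab : GoodPair a b) {g : G} (k : ℤ)
    (h1 : (a ^ k * g)⁻¹ * a ^ 7 * (a ^ k * g) ∈ K) (h2 : (a ^ k * g)⁻¹ * b ^ 7 * (a ^ k * g) ∈ K) :
    g⁻¹ * a ^ 7 * g ∈ K ∧ g⁻¹ * b ^ 7 * g ∈ K := by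
  have key := conj_V7_mem K h1 h2
  constructor
  · have := key _ (hab.normA k _ (a7_mem a b))
    have e : (a ^ k * g)⁻¹ * (a ^ k * a ^ 7 * (a ^ k)⁻¹) * (a ^ k * g) = g⁻¹ * a ^ 7 * g := by group
    rwa [e] at this
  · have := key _ (hab.normA k _ (b7_mem a b))
    have e : (a ^ k * g)⁻¹ * (a ^ k * b ^ 7 * (a ^ k)⁻¹) * (a ^ k * g) = g⁻¹ * b ^ 7 * g := by group
    rwa [e] at this

include hLR in
theorem good_of_lower {g : G} {i j : Fin 2} {k m : ℤ} (h1 : Good L R K (L i ^ k * g))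
    (h2 : Good L R K (R j ^ m * g)) : Good L R K g := by
  constructor
  · intro i'
    exact (good_move K (hLR i' j).symm m (h2.2 j) (h2.1 i')).2
  · intro j'
    exact (good_move K (hLR i j') k (h1.1 i) (h1.2 j')).2

/-- propagation from one level to all levels -/
theorem good_all (lev : G → ℤ) (t0 : ℤ)
    (hlow : ∀ g, ∃ (i : Fin 2) (k : ℤ) (j : Fin 2) (m : ℤ), lev (L i ^ k * g) = lev g - 1 ∧
      lev (R j ^ m * g) = lev g - 1)
    (hup : ∀ g, ∃ (i : Fin 2) (k : ℤ) (j : Fin 2) (m : ℤ), lev (L i ^ k * g) = lev g + 1 ∧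
      lev (R j ^ m * g) = lev g + 1)
    (hLR : ∀ i j, GoodPair (L i) (R j))
    (hbase : ∀ g, lev g = t0 → Good L R K g) : ∀ g, Good L R K g := by
  have h1 : ∀ (n : ℕ) (g : G), lev g = t0 + n → Good L R K g := by
    intro n
    induction n with
    | zero => intro g hg; exact hbase g (by simpa using hg)
    | succ n ih =>
      intro g hg
      obtain ⟨i, k, j, m, e1, e2⟩ := hlow g
      push_cast at hg
      exact good_of_lower L R hLR K (i := i) (j := j) (k := k) (m := m)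
        (ih _ (by omega)) (ih _ (by omega))
  have h2 : ∀ (n : ℕ) (g : G), lev g = t0 - n → Good L R K g := by
    intro n
    induction n with
    | zero => intro g hg; exact hbase g (by simpa using hg)
    | succ n ih =>
      intro g hg
      obtain ⟨i, k, j, m, e1, e2⟩ := hup g
      push_cast at hg
      exact good_of_lower L R hLR K (i := i) (j := j) (k := k) (m := m)
        (ih _ (by omega)) (ih _ (by omega))
  intro g
  rcases le_total t0 (lev g) with h | h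
  · exact h1 (lev g - t0).toNat g (by omega)
  · exact h2 (t0 - lev g).toNat g (by omega)

end Propagate

end Pool.Agent.MP_4804cd_al
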