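import Pool.Agent.MP_4804cd_al.Aff

/-!
First level of the amalgam: two copies of `Aff` amalgamated along an infinite cyclic group.
-/

set_option autoImplicit false

namespace Pool.Agent.MP_4804cd_al

open Monoid Function

abbrev MZ : Type := Multiplicative ℤ

/-- generator of the base group seen in factor `i` -/
def bgen : Fin 2 → Aff
  | 0 => Aff.v
  | 1 => Aff.u

/-- the free generator in factor `i` -/
def fgen : Fin 2 → Aff
  | 0 => Aff.u
  | 1 => Aff.v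

/-- base maps at the first level -/
def phi1 (i : Fin 2) : MZ →* Aff := zpowersHom Aff (bgen i)

/-- the first level group -/
abbrev AA : Type := PushoutI phi1

theorem phi1_apply (i : Fin 2) (n : MZ) : phi1 i n = bgen i ^ n.toAdd := rfl

theorem phi1_inj : ∀ i, Injective (phi1 i) := by
  intro i n m h
  rw [phi1_apply, phi1_apply] at h
  apply Multiplicative.toAdd.injective
  fin_cases i
  · exact Aff.v_inj _ _ h
  · exact Aff.u_inj _ _ h

theorem bgen_zpow_mem (i : Fin 2) (n : ℤ) : bgen i ^ n ∈ Aff.sub3 ↔ (3 : ℤ) ∣ n := by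
  fin_cases i
  · exact Aff.v_zpow_mem n
  · exact Aff.u_zpow_mem n

theorem fgen_zpow_mem (i : Fin 2) (n : ℤ) : fgen i ^ n ∈ Aff.sub3 ↔ (3 : ℤ) ∣ n := by
  fin_cases i
  · exact Aff.u_zpow_mem n
  · exact Aff.v_zpow_mem n

/-- base maps for the subgroup diagram -/
def phi1' (i : Fin 2) : MZ →* Aff.sub3 :=
  zpowersHom Aff.sub3 ⟨bgen i ^ (3 : ℤ), (bgen_zpow_mem i 3).2 (dvd_refl _)⟩

/-- cubing on the base -/
def cube : MZ →* MZ := zpowGroupHom 3

def incl1 (_ : Fin 2) : Aff.sub3 →* Aff := Aff.sub3.subtype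

theorem hcomm1 : ∀ i h, incl1 i (phi1' i h) = phi1 i (cube h) := by
  intro i h
  show ((phi1' i h : Aff.sub3) : Aff) = _
  rw [phi1_apply]
  have h1 : phi1' i h = (⟨bgen i ^ (3 : ℤ), (bgen_zpow_mem i 3).2 (dvd_refl _)⟩ : Aff.sub3) ^
    h.toAdd := rfl
  rw [h1]
  have h2 : (cube h).toAdd = 3 * h.toAdd := by
    show (h ^ (3 : ℤ)).toAdd = _
    rw [toAdd_zpow]; simp
  rw [h2, zpow_mul]
  rfl

theorem cube_inj : Injective cube := by
  intro a b h
  have h1 : (cube a).toAdd = 3 * a.toAdd := by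
    show (a ^ (3 : ℤ)).toAdd = _
    rw [toAdd_zpow]; simp
  have h2 : (cube b).toAdd = 3 * b.toAdd := by
    show (b ^ (3 : ℤ)).toAdd = _
    rw [toAdd_zpow]; simp
  have h3 : 3 * a.toAdd = 3 * b.toAdd := by rw [← h1, ← h2, h]
  apply Multiplicative.toAdd.injective
  show a.toAdd = b.toAdd
  omega

theorem hpull1 : ∀ i (g : Aff.sub3), incl1 i g ∈ (phi1 i).range → g ∈ (phi1' i).range := by
  rintro i ⟨g, hg⟩ ⟨n, hn⟩
  rw [phi1_apply] at hn
  have hn' : bgen i ^ n.toAdd = g := hn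
  rw [← hn'] at hg
  obtain ⟨m, hm⟩ := (bgen_zpow_mem i _).1 hg
  refine ⟨Multiplicative.ofAdd m, ?_⟩
  apply Subtype.ext
  have : ((phi1' i (Multiplicative.ofAdd m) : Aff.sub3) : Aff) =
      phi1 i (cube (Multiplicative.ofAdd m)) := hcomm1 i _
  rw [this, phi1_apply]
  show _ = g
  rw [← hn', hm]
  rfl

/-- the map of pushouts -/
def push1 : PushoutI phi1' →* AA := pushMap cube incl1 hcomm1

theorem push1_inj : Injective push1 :=
  pushMap_injective hcomm1 phi1_inj cube_inj hpull1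

/-- the sub-amalgam -/
def AA3 : Subgroup AA := push1.range

section hom

variable {Y : Type*} [Group Y]

theorem phi1'_coe (i : Fin 2) (n : MZ) : ((phi1' i n : Aff.sub3) : Aff) =
    bgen i ^ (3 * n.toAdd) := by
  rw [zpow_mul]
  rfl

/-- the two factor homomorphisms -/
def fac (y0 y1 y2 : Y) (h0 : y0 ^ 7 = 1) (h1 : y1 ^ 7 = 1) (h2 : y2 ^ 7 = 1)
    (h01 : Commute y0 y1) (h12 : Commute y1 y2) (i : Fin 2) : Aff.sub3 →* Y :=
  match i with
  | 0 => Aff.hom y0 y1 h0 h1 h01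
  | 1 => Aff.hom y1 y2 h1 h2 h12

theorem fac_comp (y0 y1 y2 : Y) (h0 : y0 ^ 7 = 1) (h1 : y1 ^ 7 = 1) (h2 : y2 ^ 7 = 1)
    (h01 : Commute y0 y1) (h12 : Commute y1 y2) (i : Fin 2) :
    (fac y0 y1 y2 h0 h1 h2 h01 h12 i).comp (phi1' i) = zpowersHom Y y1 := by
  apply MonoidHom.ext
  intro n
  fin_cases i
  · show Aff.hom y0 y1 h0 h1 h01 (phi1' 0 n) = y1 ^ n.toAdd
    have hmem : Aff.v ^ (3 * n.toAdd) ∈ Aff.sub3 :=
      (Aff.v_zpow_mem _).2 (Dvd.intro _ rfl)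
    have : phi1' 0 n = ⟨Aff.v ^ (3 * n.toAdd), hmem⟩ := Subtype.ext (phi1'_coe 0 n)
    rw [this, Aff.hom_v]
  · show Aff.hom y1 y2 h1 h2 h12 (phi1' 1 n) = y1 ^ n.toAdd
    have hmem : Aff.u ^ (3 * n.toAdd) ∈ Aff.sub3 :=
      (Aff.u_zpow_mem _).2 (Dvd.intro _ rfl)
    have : phi1' 1 n = ⟨Aff.u ^ (3 * n.toAdd), hmem⟩ := Subtype.ext (phi1'_coe 1 n)
    rw [this, Aff.hom_u]

/-- lift to the pushout -/
def facLift (y0 y1 y2 : Y) (h0 : y0 ^ 7 = 1) (h1 : y1 ^ 7 = 1) (h2 : y2 ^ 7 = 1)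
    (h01 : Commute y0 y1) (h12 : Commute y1 y2) : PushoutI phi1' →* Y :=
  PushoutI.lift (fac y0 y1 y2 h0 h1 h2 h01 h12) (zpowersHom Y y1)
    (fac_comp y0 y1 y2 h0 h1 h2 h01 h12)

/-- the homomorphism from the sub-amalgam determined by three elements -/
noncomputable def psi1 (y0 y1 y2 : Y) (h0 : y0 ^ 7 = 1) (h1 : y1 ^ 7 = 1) (h2 : y2 ^ 7 = 1)
    (h01 : Commute y0 y1) (h12 : Commute y1 y2) : AA3 →* Y :=
  (facLift y0 y1 y2 h0 h1 h2 h01 h12).comp
    (MonoidHom.ofInjective push1_inj).symm.toMonoidHom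

variable (y0 y1 y2 : Y) (h0 : y0 ^ 7 = 1) (h1 : y1 ^ 7 = 1) (h2 : y2 ^ 7 = 1)
    (h01 : Commute y0 y1) (h12 : Commute y1 y2)

theorem psi1_push (x : PushoutI phi1') (hx : push1 x ∈ AA3) :
    psi1 y0 y1 y2 h0 h1 h2 h01 h12 ⟨push1 x, hx⟩ =
    facLift y0 y1 y2 h0 h1 h2 h01 h12 x := by
  have : (MonoidHom.ofInjective push1_inj).symm ⟨push1 x, hx⟩ = x := by
    apply (MonoidHom.ofInjective push1_inj).injective
    rw [MulEquiv.apply_symm_apply]
    rfl
  show facLift y0 y1 y2 h0 h1 h2 h01 h12 ((MonoidHom.ofInjective push1_inj).symm ⟨push1 x, hx⟩) = _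
  rw [this]

theorem of0_mem (g : Aff) (hg : g ∈ Aff.sub3) (i : Fin 2) :
    (PushoutI.of i g : AA) ∈ AA3 :=
  ⟨PushoutI.of i ⟨g, hg⟩, by rw [push1, pushMap_of]; rfl⟩

theorem psi1_of0 (hm : (PushoutI.of 0 (Aff.u ^ (3 : ℤ)) : AA) ∈ AA3) :
    psi1 y0 y1 y2 h0 h1 h2 h01 h12 ⟨PushoutI.of 0 (Aff.u ^ (3 : ℤ)), hm⟩ = y0 := by
  have hmem : Aff.u ^ (3 * (1 : ℤ)) ∈ Aff.sub3 := (Aff.u_zpow_mem _).2 (by norm_num)
  have e : (⟨PushoutI.of 0 (Aff.u ^ (3 : ℤ)), hm⟩ : AA3) =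
      ⟨push1 (PushoutI.of 0 ⟨Aff.u ^ (3 * (1 : ℤ)), hmem⟩), ⟨_, rfl⟩⟩ := by
    apply Subtype.ext
    simp only [push1, pushMap_of]
    rfl
  rw [e, psi1_push, facLift, PushoutI.lift_of]
  show Aff.hom y0 y1 h0 h1 h01 _ = y0
  rw [Aff.hom_u, zpow_one]

theorem psi1_of1 (hm : (PushoutI.of 1 (Aff.v ^ (3 : ℤ)) : AA) ∈ AA3) :
    psi1 y0 y1 y2 h0 h1 h2 h01 h12 ⟨PushoutI.of 1 (Aff.v ^ (3 : ℤ)), hm⟩ = y2 := by
  have hmem : Aff.v ^ (3 * (1 : ℤ)) ∈ Aff.sub3 := (Aff.v_zpow_mem _).2 (by norm_num)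
  have e : (⟨PushoutI.of 1 (Aff.v ^ (3 : ℤ)), hm⟩ : AA3) =
      ⟨push1 (PushoutI.of 1 ⟨Aff.v ^ (3 * (1 : ℤ)), hmem⟩), ⟨_, rfl⟩⟩ := by
    apply Subtype.ext
    simp only [push1, pushMap_of]
    rfl
  rw [e, psi1_push, facLift, PushoutI.lift_of]
  show Aff.hom y1 y2 h1 h2 h12 _ = y2
  rw [Aff.hom_v, zpow_one]

theorem psi1_mid (hm : (PushoutI.of 0 (Aff.v ^ (3 : ℤ)) : AA) ∈ AA3) :
    psi1 y0 y1 y2 h0 h1 h2 h01 h12 ⟨PushoutI.of 0 (Aff.v ^ (3 : ℤ)), hm⟩ = y1 := by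
  have hmem : Aff.v ^ (3 * (1 : ℤ)) ∈ Aff.sub3 := (Aff.v_zpow_mem _).2 (by norm_num)
  have e : (⟨PushoutI.of 0 (Aff.v ^ (3 : ℤ)), hm⟩ : AA3) =
      ⟨push1 (PushoutI.of 0 ⟨Aff.v ^ (3 * (1 : ℤ)), hmem⟩), ⟨_, rfl⟩⟩ := by
    apply Subtype.ext
    simp only [push1, pushMap_of]
    rfl
  rw [e, psi1_push, facLift, PushoutI.lift_of]
  show Aff.hom y0 y1 h0 h1 h01 _ = y1
  rw [Aff.hom_v, zpow_one]

end hom

/-! The free group of rank two as a free product of two infinite cyclic groups. -/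

/-- free product of two infinite cyclic groups -/
abbrev FF : Type := CoprodI (fun _ : Fin 2 => MZ)

/-- inclusion of letters -/
def lett (i : Fin 2) : MZ →* Aff := zpowersHom Aff (fgen i)

theorem lett_apply (i : Fin 2) (n : MZ) : lett i n = fgen i ^ n.toAdd := rfl

/-- the map from the free group to the first level group -/
def phiF : FF →* AA := CoprodI.lift (fun i => (PushoutI.of i).comp (lett i))

theorem phiF_of (i : Fin 2) (n : MZ) :
    phiF (CoprodI.of (i := i) n) = PushoutI.of i (fgen i ^ n.toAdd) := by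
  rw [phiF, CoprodI.lift_of]
  rfl

/-- letterwise map -/
def toLetters (L : List (Σ _ : Fin 2, MZ)) : List (Σ _ : Fin 2, Aff) :=
  L.map fun s => ⟨s.1, lett s.1 s.2⟩

theorem lett_not_mem (i : Fin 2) (n : MZ) (hn : n ≠ 1) : lett i n ∉ (phi1 i).range := by
  rintro ⟨m, hm⟩
  apply hn
  apply Multiplicative.toAdd.injective
  show n.toAdd = 0
  rw [phi1_apply, lett_apply] at hm
  fin_cases i
  · exact Aff.u_zpow_ne _ _ hm.symm
  · exact Aff.v_zpow_ne _ _ hm.symm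

theorem red_toLetters (L : List (Σ _ : Fin 2, MZ)) (h1 : ∀ s ∈ L, s.2 ≠ 1)
    (h2 : L.IsChain fun a b => a.1 ≠ b.1) : Red phi1 (toLetters L) := by
  constructor
  · intro s hs
    simp only [toLetters, List.mem_map] at hs
    obtain ⟨t, ht, rfl⟩ := hs
    exact lett_not_mem _ _ (h1 t ht)
  · simp only [toLetters, List.isChain_map]
    exact h2

/-- product of a list of letters in the free product -/
def fprod (L : List (Σ _ : Fin 2, MZ)) : FF :=
  (L.map fun s => (CoprodI.of (M := fun _ : Fin 2 => MZ) (i := s.1) s.2)).prod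

theorem phiF_fprod (L : List (Σ _ : Fin 2, MZ)) : phiF (fprod L) = lprod phi1 (toLetters L) := by
  induction L with
  | nil => simp [fprod, lprod, toLetters]
  | cons s L ih =>
    have : fprod (s :: L) = CoprodI.of (M := fun _ : Fin 2 => MZ) (i := s.1) s.2 * fprod L := rfl
    rw [this, map_mul, ih, phiF_of]
    rfl

theorem exists_fprod (f : FF) : ∃ L : List (Σ _ : Fin 2, MZ), (∀ s ∈ L, s.2 ≠ 1) ∧
    (L.IsChain fun a b => a.1 ≠ b.1) ∧ f = fprod L := by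
  classical
  let w := CoprodI.Word.equiv f
  refine ⟨w.toList, w.ne_one, w.chain_ne, ?_⟩
  have : w.prod = f := CoprodI.Word.equiv.left_inv f
  rw [← this]
  rfl

theorem phiF_inj : Injective phiF := by
  rw [injective_iff_map_eq_one]
  intro f hf
  obtain ⟨L, h1, h2, rfl⟩ := exists_fprod f
  rw [phiF_fprod] at hf
  by_cases hL : L = []
  · subst hL; rfl
  · exfalso
    refine lprod_not_mem_base phi1_inj (toLetters L) (by simpa [toLetters] using hL)
      (red_toLetters L h1 h2) ?_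
    rw [hf]; exact one_mem _

/-- the subgroup of the free group generated by the cubes of the generators -/
def FF3 : Subgroup FF :=
  Subgroup.closure (Set.range fun i : Fin 2 =>
    CoprodI.of (M := fun _ : Fin 2 => MZ) (i := i) (Multiplicative.ofAdd (3 : ℤ)))

theorem of_mem_FF3 (i : Fin 2) (n : MZ) (hn : (3 : ℤ) ∣ n.toAdd) :
    CoprodI.of (M := fun _ : Fin 2 => MZ) (i := i) n ∈ FF3 := by
  obtain ⟨m, hm⟩ := hn
  have h1 : n = (Multiplicative.ofAdd (3 : ℤ)) ^ m := by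
    apply Multiplicative.toAdd.injective
    show n.toAdd = ((Multiplicative.ofAdd (3 : ℤ)) ^ m).toAdd
    rw [toAdd_zpow, hm]
    simp [mul_comm]
  rw [h1, map_zpow]
  have h2 : CoprodI.of (M := fun _ : Fin 2 => MZ) (i := i) (Multiplicative.ofAdd (3 : ℤ)) ∈ FF3 :=
    Subgroup.subset_closure (Set.mem_range_self i)
  exact zpow_mem h2 m

theorem phiF_mem_AA3 : ∀ f ∈ FF3, phiF f ∈ AA3 := by
  intro f hf
  have : FF3 ≤ AA3.comap phiF := by
    rw [FF3, Subgroup.closure_le]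
    rintro _ ⟨i, rfl⟩
    show phiF _ ∈ AA3
    rw [phiF_of]
    apply of0_mem
    exact (fgen_zpow_mem i _).2 (by simp)
  exact this hf

theorem mem_FF3_aux (L : List (Σ _ : Fin 2, MZ)) (h1 : ∀ s ∈ L, s.2 ≠ 1)
    (h2 : L.IsChain fun a b => a.1 ≠ b.1) (h3 : phiF (fprod L) ∈ AA3) : fprod L ∈ FF3 := by
  induction L with
  | nil => exact one_mem _
  | cons s L ih =>
    obtain ⟨i, n⟩ := s
    have hcons : fprod (⟨i, n⟩ :: L) = CoprodI.of (M := fun _ : Fin 2 => MZ) (i := i) n * fprod L :=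
      rfl
    have hred := red_toLetters (⟨i, n⟩ :: L) h1 h2
    have h3' : lprod phi1 (toLetters (⟨i, n⟩ :: L)) ∈ (pushMap cube incl1 hcomm1).range := by
      rw [← phiF_fprod]; exact h3
    obtain ⟨m, g, hmg⟩ := first_letter hcomm1 phi1_inj cube_inj hpull1 (i := i)
      (f := lett i n) (A := toLetters L) hred h3'
    have hdvd : (3 : ℤ) ∣ n.toAdd := by
      rw [lett_apply, phi1_apply] at hmg
      have hm : fgen i ^ n.toAdd * bgen i ^ m.toAdd ∈ Aff.sub3 := by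
        rw [hmg]; exact g.2
      revert hm
      fin_cases i
      · intro hm; exact Aff.dvd_of_uv _ _ hm
      · intro hm; exact Aff.dvd_of_vu _ _ hm
    have hin := of_mem_FF3 i n hdvd
    rw [hcons]
    refine mul_mem hin (ih (fun s hs => h1 s (List.mem_cons_of_mem _ hs)) h2.tail ?_)
    have h4 := phiF_mem_AA3 _ hin
    rw [hcons, map_mul] at h3
    exact (Subgroup.mul_mem_cancel_left _ h4).1 h3

theorem mem_FF3_iff (f : FF) : phiF f ∈ AA3 ↔ f ∈ FF3 := by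
  constructor
  · intro h
    obtain ⟨L, h1, h2, rfl⟩ := exists_fprod f
    exact mem_FF3_aux L h1 h2 h
  · exact phiF_mem_AA3 f

end Pool.Agent.MP_4804cd_al
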