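import Pool.Agent.MP_4804cd_al.Level1

/-!
Second level of the amalgam: two copies of the first level group amalgamated along a free
group of rank two, and the map from the Higman group.
-/

set_option autoImplicit false

namespace Pool.Agent.MP_4804cd_al

open Monoid Function

/-- swapping the two free factors -/
def sw : FF →* FF :=
  CoprodI.lift (fun i => CoprodI.of (M := fun _ : Fin 2 => MZ) (i := i + 1))

/-- letters of the free group -/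
def fof (i : Fin 2) : MZ →* FF := CoprodI.of (M := fun _ : Fin 2 => MZ) (i := i)

theorem sw_fof (i : Fin 2) (n : MZ) : sw (fof i n) = fof (i + 1) n := by
  rw [sw, fof, CoprodI.lift_of]
  rfl

theorem sw_sw (f : FF) : sw (sw f) = f := by
  have : sw.comp sw = MonoidHom.id FF := by
    apply CoprodI.ext_hom
    intro i
    apply MonoidHom.ext
    intro n
    show sw (sw (fof i n)) = fof i n
    rw [sw_fof, sw_fof]
    fin_cases i <;> rfl
  exact DFunLike.congr_fun this f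

theorem sw_inj : Injective sw := by
  intro a b h
  rw [← sw_sw a, h, sw_sw]

theorem sw_mem : ∀ f ∈ FF3, sw f ∈ FF3 := by
  intro f hf
  have : FF3 ≤ FF3.comap sw := by
    conv_lhs => rw [FF3]
    rw [Subgroup.closure_le]
    rintro _ ⟨i, rfl⟩
    show sw (fof i _) ∈ FF3
    rw [sw_fof]
    exact of_mem_FF3 _ _ (by simp)
  exact this hf

/-- base maps at the second level -/
def phi2 (i : Fin 2) : FF →* AA :=
  match i with
  | 0 => phiF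
  | 1 => phiF.comp sw

/-- the second level group -/
abbrev HH : Type := PushoutI phi2

theorem phi2_inj : ∀ i, Injective (phi2 i) := by
  intro i
  fin_cases i
  · exact phiF_inj
  · exact phiF_inj.comp sw_inj

theorem phi2_mem (i : Fin 2) : ∀ f ∈ FF3, phi2 i f ∈ AA3 := by
  intro f hf
  fin_cases i
  · exact phiF_mem_AA3 f hf
  · exact phiF_mem_AA3 _ (sw_mem f hf)

theorem phi2_mem' (i : Fin 2) : ∀ f, phi2 i f ∈ AA3 → f ∈ FF3 := by
  intro f hf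
  fin_cases i
  · exact (mem_FF3_iff f).1 hf
  · have h1 := (mem_FF3_iff (sw f)).1 hf
    have h2 := sw_mem _ h1
    rwa [sw_sw] at h2

/-- base maps for the sub-diagram -/
def phi2' (i : Fin 2) : FF3 →* AA3 :=
  ((phi2 i).comp FF3.subtype).codRestrict AA3 (fun f => phi2_mem i f f.2)

def incl2 (_ : Fin 2) : AA3 →* AA := AA3.subtype

theorem hcomm2 : ∀ i h, incl2 i (phi2' i h) = phi2 i (FF3.subtype h) := by
  intro i h
  rfl

theorem hpull2 : ∀ i (g : AA3), incl2 i g ∈ (phi2 i).range → g ∈ (phi2' i).range := by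
  rintro i ⟨g, hg⟩ ⟨f, hf⟩
  have hf' : phi2 i f = g := hf
  rw [← hf'] at hg
  refine ⟨⟨f, phi2_mem' i f hg⟩, Subtype.ext hf⟩

/-- the map of pushouts -/
def push2 : PushoutI phi2' →* HH := pushMap FF3.subtype incl2 hcomm2

theorem push2_inj : Injective push2 :=
  pushMap_injective hcomm2 phi2_inj FF3.subtype_injective hpull2

/-- the sub-amalgam -/
def HH3 : Subgroup HH := push2.range

/-- the sub-amalgam as a pushout -/
noncomputable def eqv2 : PushoutI phi2' ≃* HH3 := MonoidHom.ofInjective push2_inj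

theorem eqv2_symm (x : PushoutI phi2') (hx : push2 x ∈ HH3) : eqv2.symm ⟨push2 x, hx⟩ = x := by
  apply eqv2.injective
  rw [MulEquiv.apply_symm_apply]
  rfl

section hom

variable {Y : Type*} [Group Y] (y0 y1 y2 y3 : Y) (h0 : y0 ^ 7 = 1) (h1 : y1 ^ 7 = 1)
  (h2 : y2 ^ 7 = 1) (h3 : y3 ^ 7 = 1)
  (h01 : Commute y0 y1) (h12 : Commute y1 y2) (h23 : Commute y2 y3) (h30 : Commute y3 y0)

/-- the two factor homomorphisms -/
noncomputable def fac2 (i : Fin 2) : AA3 →* Y :=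
  match i with
  | 0 => psi1 y0 y1 y2 h0 h1 h2 h01 h12
  | 1 => psi1 y2 y3 y0 h2 h3 h0 h23 h30

theorem phi2'_gen00 (hm : fof 0 (Multiplicative.ofAdd (3 : ℤ)) ∈ FF3)
    (hm' : (PushoutI.of 0 (Aff.u ^ (3 : ℤ)) : AA) ∈ AA3) :
    phi2' 0 ⟨fof 0 (Multiplicative.ofAdd (3 : ℤ)), hm⟩ = ⟨PushoutI.of 0 (Aff.u ^ (3 : ℤ)), hm'⟩ := by
  apply Subtype.ext
  show phiF (fof 0 _) = _
  rw [fof, phiF_of]
  rfl

theorem phi2'_gen01 (hm : fof 1 (Multiplicative.ofAdd (3 : ℤ)) ∈ FF3)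
    (hm' : (PushoutI.of 1 (Aff.v ^ (3 : ℤ)) : AA) ∈ AA3) :
    phi2' 0 ⟨fof 1 (Multiplicative.ofAdd (3 : ℤ)), hm⟩ = ⟨PushoutI.of 1 (Aff.v ^ (3 : ℤ)), hm'⟩ := by
  apply Subtype.ext
  show phiF (fof 1 _) = _
  rw [fof, phiF_of]
  rfl

theorem phi2'_gen10 (hm : fof 0 (Multiplicative.ofAdd (3 : ℤ)) ∈ FF3)
    (hm' : (PushoutI.of 1 (Aff.v ^ (3 : ℤ)) : AA) ∈ AA3) :
    phi2' 1 ⟨fof 0 (Multiplicative.ofAdd (3 : ℤ)), hm⟩ = ⟨PushoutI.of 1 (Aff.v ^ (3 : ℤ)), hm'⟩ := by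
  apply Subtype.ext
  show phiF (sw (fof 0 _)) = _
  rw [sw_fof, fof, phiF_of]
  rfl

theorem phi2'_gen11 (hm : fof 1 (Multiplicative.ofAdd (3 : ℤ)) ∈ FF3)
    (hm' : (PushoutI.of 0 (Aff.u ^ (3 : ℤ)) : AA) ∈ AA3) :
    phi2' 1 ⟨fof 1 (Multiplicative.ofAdd (3 : ℤ)), hm⟩ = ⟨PushoutI.of 0 (Aff.u ^ (3 : ℤ)), hm'⟩ := by
  apply Subtype.ext
  show phiF (sw (fof 1 _)) = _
  rw [sw_fof, fof, phiF_of]
  rfl

theorem u3_mem : (PushoutI.of 0 (Aff.u ^ (3 : ℤ)) : AA) ∈ AA3 :=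
  of0_mem _ ((Aff.u_zpow_mem _).2 (dvd_refl _)) 0

theorem v3_mem : (PushoutI.of 1 (Aff.v ^ (3 : ℤ)) : AA) ∈ AA3 :=
  of0_mem _ ((Aff.v_zpow_mem _).2 (dvd_refl _)) 1

theorem m3_mem : (PushoutI.of 0 (Aff.v ^ (3 : ℤ)) : AA) ∈ AA3 :=
  of0_mem _ ((Aff.v_zpow_mem _).2 (dvd_refl _)) 0

theorem fof3_mem (i : Fin 2) : fof i (Multiplicative.ofAdd (3 : ℤ)) ∈ FF3 :=
  of_mem_FF3 _ _ (by simp)

/-- Two homomorphisms on `FF3` agreeing on the generators agree. -/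
theorem hom_ext_FF3 {f g : FF3 →* Y}
    (h : ∀ i, f ⟨fof i (Multiplicative.ofAdd (3 : ℤ)), fof3_mem i⟩ =
      g ⟨fof i (Multiplicative.ofAdd (3 : ℤ)), fof3_mem i⟩) : f = g := by
  apply MonoidHom.ext
  rintro ⟨x, hx⟩
  have key : ∀ x (hx : x ∈ FF3), f ⟨x, hx⟩ = g ⟨x, hx⟩ := by
    intro x hx
    induction hx using Subgroup.closure_induction with
    | mem x hx =>
      obtain ⟨i, rfl⟩ := hx
      exact h i
    | one => exact (map_one f).trans (map_one g).symm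
    | mul x y hx hy ihx ihy =>
      have e : (⟨x * y, mul_mem hx hy⟩ : FF3) = ⟨x, hx⟩ * ⟨y, hy⟩ := rfl
      exact (congrArg f e).trans ((map_mul f _ _).trans
        ((congrArg₂ (· * ·) ihx ihy).trans ((map_mul g _ _).symm.trans (congrArg g e.symm))))
    | inv x hx ihx =>
      have e : (⟨x⁻¹, inv_mem hx⟩ : FF3) = ⟨x, hx⟩⁻¹ := rfl
      exact (congrArg f e).trans ((map_inv f _).trans
        ((congrArg Inv.inv ihx).trans ((map_inv g _).symm.trans (congrArg g e.symm))))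
  exact key x hx

theorem fac2_comp (i : Fin 2) :
    (fac2 y0 y1 y2 y3 h0 h1 h2 h3 h01 h12 h23 h30 i).comp (phi2' i) =
    (psi1 y0 y1 y2 h0 h1 h2 h01 h12).comp (phi2' 0) := by
  fin_cases i
  · rfl
  · apply hom_ext_FF3
    intro j
    fin_cases j
    · show psi1 y2 y3 y0 h2 h3 h0 h23 h30 (phi2' 1 ⟨fof 0 _, _⟩) =
        psi1 y0 y1 y2 h0 h1 h2 h01 h12 (phi2' 0 ⟨fof 0 _, _⟩)
      rw [phi2'_gen10 _ v3_mem, phi2'_gen00 _ u3_mem, psi1_of1, psi1_of0]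
    · show psi1 y2 y3 y0 h2 h3 h0 h23 h30 (phi2' 1 ⟨fof 1 _, _⟩) =
        psi1 y0 y1 y2 h0 h1 h2 h01 h12 (phi2' 0 ⟨fof 1 _, _⟩)
      rw [phi2'_gen11 _ u3_mem, phi2'_gen01 _ v3_mem, psi1_of1, psi1_of0]

/-- lift to the pushout -/
noncomputable def facLift2 : PushoutI phi2' →* Y :=
  PushoutI.lift (fac2 y0 y1 y2 y3 h0 h1 h2 h3 h01 h12 h23 h30)
    ((psi1 y0 y1 y2 h0 h1 h2 h01 h12).comp (phi2' 0))
    (fac2_comp y0 y1 y2 y3 h0 h1 h2 h3 h01 h12 h23 h30)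

/-- the homomorphism from the sub-amalgam -/
noncomputable def psi2 : HH3 →* Y :=
  (facLift2 y0 y1 y2 y3 h0 h1 h2 h3 h01 h12 h23 h30).comp eqv2.symm.toMonoidHom

theorem psi2_push (x : PushoutI phi2') (hx : push2 x ∈ HH3) :
    psi2 y0 y1 y2 y3 h0 h1 h2 h3 h01 h12 h23 h30 ⟨push2 x, hx⟩ =
    facLift2 y0 y1 y2 y3 h0 h1 h2 h3 h01 h12 h23 h30 x := by
  show facLift2 y0 y1 y2 y3 h0 h1 h2 h3 h01 h12 h23 h30 (eqv2.symm ⟨push2 x, hx⟩) = _
  rw [eqv2_symm]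

theorem psi2_of (i : Fin 2) (g : AA) (hg : g ∈ AA3) (hm : (PushoutI.of i g : HH) ∈ HH3) :
    psi2 y0 y1 y2 y3 h0 h1 h2 h3 h01 h12 h23 h30 ⟨PushoutI.of i g, hm⟩ =
    fac2 y0 y1 y2 y3 h0 h1 h2 h3 h01 h12 h23 h30 i ⟨g, hg⟩ := by
  have e : (⟨PushoutI.of i g, hm⟩ : HH3) = ⟨push2 (PushoutI.of i ⟨g, hg⟩), ⟨_, rfl⟩⟩ := by
    apply Subtype.ext
    simp only [push2, pushMap_of]
    rfl
  rw [e, psi2_push, facLift2, PushoutI.lift_of]

end hom

theorem of_mem_HH3 (i : Fin 2) (g : AA) (hg : g ∈ AA3) : (PushoutI.of i g : HH) ∈ HH3 :=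
  ⟨PushoutI.of i ⟨g, hg⟩, by rw [push2, pushMap_of]; rfl⟩

end Pool.Agent.MP_4804cd_al
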