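import Mathlib

/-!
Marked limits: a finitely presented group with two homomorphisms to the free group of rank
two whose height functions cancel can be mapped to permutation groups in which the limiting
commutation relations fail.
-/

set_option autoImplicit false

namespace Pool.Agent.MP_4804cd_al

abbrev F2 : Type := FreeGroup (Fin 2)
abbrev F3 : Type := FreeGroup (Fin 3)

/-- the shift of the integers -/
def shiftZ : Equiv.Perm ℤ := Equiv.addRight 1

def rho (J : ℤ) : Fin 3 → Equiv.Perm ℤ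
  | 0 => shiftZ
  | 1 => Equiv.swap 0 1
  | 2 => Equiv.swap J (J + 1)

def rhoA : Fin 3 → Equiv.Perm ℤ
  | 0 => shiftZ
  | 1 => Equiv.swap 0 1
  | 2 => 1

def rhoB (J : ℤ) : Fin 3 → Equiv.Perm ℤ
  | 0 => shiftZ
  | 1 => 1
  | 2 => Equiv.swap J (J + 1)

/-- action of a letter -/
def act (f : Fin 3 → Equiv.Perm ℤ) (x : Fin 3 × Bool) : Equiv.Perm ℤ :=
  cond x.2 (f x.1) (f x.1)⁻¹

theorem swap_near (a m : ℤ) : |Equiv.swap a (a + 1) m - m| ≤ 1 := by
  rw [Equiv.swap_apply_def]
  split_ifs with h1 h2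
  · subst h1; simp
  · subst h2; simp
  · simp

theorem act_near (J : ℤ) (x : Fin 3 × Bool) (m : ℤ) : |act (rho J) x m - m| ≤ 1 := by
  obtain ⟨i, b⟩ := x
  have hs : ∀ m : ℤ, |shiftZ m - m| ≤ 1 := by
    intro m; simp [shiftZ]
  have hs' : ∀ m : ℤ, |shiftZ⁻¹ m - m| ≤ 1 := by
    intro m
    have : shiftZ⁻¹ m = m - 1 := by
      rw [Equiv.Perm.inv_eq_iff_eq]; simp [shiftZ]
    rw [this]; simp
  fin_cases i <;> cases b
  · exact hs' m
  · exact hs m
  · show |(Equiv.swap (0 : ℤ) 1)⁻¹ m - m| ≤ 1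
    rw [Equiv.swap_inv]
    exact swap_near 0 m
  · exact swap_near 0 m
  · show |(Equiv.swap J (J + 1))⁻¹ m - m| ≤ 1
    rw [Equiv.swap_inv]
    exact swap_near J m
  · exact swap_near J m

theorem act_eqA (J : ℤ) (x : Fin 3 × Bool) (m : ℤ) (hm : m < J) :
    act (rho J) x m = act rhoA x m := by
  obtain ⟨i, b⟩ := x
  fin_cases i
  · rfl
  · rfl
  · cases b
    · show (Equiv.swap J (J + 1))⁻¹ m = (1 : Equiv.Perm ℤ)⁻¹ m
      rw [Equiv.swap_inv, Equiv.swap_apply_of_ne_of_ne (by omega) (by omega)]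
      rfl
    · show (Equiv.swap J (J + 1)) m = (1 : Equiv.Perm ℤ) m
      rw [Equiv.swap_apply_of_ne_of_ne (by omega) (by omega)]
      rfl

theorem act_eqB (J : ℤ) (x : Fin 3 × Bool) (m : ℤ) (hm : 1 < m) :
    act (rho J) x m = act (rhoB J) x m := by
  obtain ⟨i, b⟩ := x
  fin_cases i
  · rfl
  · cases b
    · show (Equiv.swap (0 : ℤ) 1)⁻¹ m = (1 : Equiv.Perm ℤ)⁻¹ m
      rw [Equiv.swap_inv, Equiv.swap_apply_of_ne_of_ne (by omega) (by omega)]
      rfl
    · show (Equiv.swap (0 : ℤ) 1) m = (1 : Equiv.Perm ℤ) m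
      rw [Equiv.swap_apply_of_ne_of_ne (by omega) (by omega)]
      rfl
  · rfl

theorem lift_cons (f : Fin 3 → Equiv.Perm ℤ) (x : Fin 3 × Bool) (L : List (Fin 3 × Bool)) (m : ℤ) :
    FreeGroup.lift f (FreeGroup.mk (x :: L)) m = act f x (FreeGroup.lift f (FreeGroup.mk L) m) := by
  simp only [FreeGroup.lift_mk, List.map_cons, List.prod_cons]
  rfl

theorem near (J : ℤ) (L : List (Fin 3 × Bool)) (m : ℤ) :
    |FreeGroup.lift (rho J) (FreeGroup.mk L) m - m| ≤ L.length := by
  induction L with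
  | nil => simp
  | cons x L ih =>
    rw [lift_cons]
    have h1 := act_near J x (FreeGroup.lift (rho J) (FreeGroup.mk L) m)
    rw [abs_le] at h1 ih ⊢
    simp only [List.length_cons]
    push_cast
    constructor <;> linarith [h1.1, h1.2, ih.1, ih.2]

theorem eqA (J : ℤ) (L : List (Fin 3 × Bool)) (m : ℤ) (hm : m + L.length < J) :
    FreeGroup.lift (rho J) (FreeGroup.mk L) m = FreeGroup.lift rhoA (FreeGroup.mk L) m := by
  induction L with
  | nil => rfl
  | cons x L ih =>
    simp only [List.length_cons] at hm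
    push_cast at hm
    rw [lift_cons, lift_cons, ← ih (by linarith)]
    apply act_eqA
    have := near J L m
    rw [abs_le] at this
    linarith [this.2]

theorem eqB (J : ℤ) (L : List (Fin 3 × Bool)) (m : ℤ) (hm : 1 + L.length < m) :
    FreeGroup.lift (rho J) (FreeGroup.mk L) m = FreeGroup.lift (rhoB J) (FreeGroup.mk L) m := by
  induction L with
  | nil => rfl
  | cons x L ih =>
    simp only [List.length_cons] at hm
    push_cast at hm
    rw [lift_cons, lift_cons, ← ih (by linarith)]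
    apply act_eqB
    have := near J L m
    rw [abs_le] at this
    linarith [this.1]

/-- first projection of the fibre product -/
def q1 : F3 →* F2 := FreeGroup.lift (fun i => match i with
  | 0 => FreeGroup.of 0
  | 1 => FreeGroup.of 1
  | 2 => 1)

/-- second projection of the fibre product -/
def q2 : F3 →* F2 := FreeGroup.lift (fun i => match i with
  | 0 => (FreeGroup.of 0)⁻¹
  | 1 => 1
  | 2 => FreeGroup.of 1)

theorem liftA_eq (r : F3) (h : q1 r = 1) : FreeGroup.lift rhoA r = 1 := by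
  have : FreeGroup.lift rhoA = (FreeGroup.lift (fun i : Fin 2 => match i with
      | 0 => shiftZ
      | 1 => Equiv.swap (0 : ℤ) 1)).comp q1 := by
    apply FreeGroup.ext_hom
    intro i
    fin_cases i <;> simp [q1, rhoA]
  rw [this, MonoidHom.comp_apply, h, map_one]

theorem liftB_eq (J : ℤ) (r : F3) (h : q2 r = 1) : FreeGroup.lift (rhoB J) r = 1 := by
  have : FreeGroup.lift (rhoB J) = (FreeGroup.lift (fun i : Fin 2 => match i with
      | 0 => shiftZ⁻¹
      | 1 => Equiv.swap J (J + 1))).comp q2 := by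
    apply FreeGroup.ext_hom
    intro i
    fin_cases i <;> simp [q2, rhoB]
  rw [this, MonoidHom.comp_apply, h, map_one]

theorem local_trivial (r : F3) (h1 : q1 r = 1) (h2 : q2 r = 1) :
    ∃ J0 : ℤ, ∀ J ≥ J0, FreeGroup.lift (rho J) r = 1 := by
  obtain ⟨L, rfl⟩ : ∃ L, FreeGroup.mk L = r := ⟨r.toWord, FreeGroup.mk_toWord⟩
  refine ⟨2 * L.length + 3, fun J hJ => ?_⟩
  ext m
  by_cases hm : m + L.length < J
  · rw [eqA J L m hm, liftA_eq _ h1]
  · rw [eqB J L m (by push Not at hm; linarith), liftB_eq J _ h2]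

/-- height of a word -/
def chi : F2 →* Multiplicative ℤ := FreeGroup.lift (fun i => match i with
  | 0 => Multiplicative.ofAdd 1
  | 1 => 1)

def iota1 : F2 →* F3 := FreeGroup.lift (fun i => match i with
  | 0 => FreeGroup.of 0
  | 1 => FreeGroup.of 1)

def iota2 : F2 →* F3 := FreeGroup.lift (fun i => match i with
  | 0 => (FreeGroup.of 0)⁻¹
  | 1 => FreeGroup.of 2)

theorem q1_iota1 (w : F2) : q1 (iota1 w) = w := by
  have : q1.comp iota1 = MonoidHom.id F2 := by
    apply FreeGroup.ext_hom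
    intro i
    fin_cases i <;> simp [q1, iota1]
  exact DFunLike.congr_fun this w

theorem q2_iota2 (w : F2) : q2 (iota2 w) = w := by
  have : q2.comp iota2 = MonoidHom.id F2 := by
    apply FreeGroup.ext_hom
    intro i
    fin_cases i <;> simp [q2, iota2]
  exact DFunLike.congr_fun this w

theorem q2_iota1 (w : F2) : q2 (iota1 w) = (FreeGroup.of 0) ^ (-(chi w).toAdd) := by
  have : q2.comp iota1 = (zpowersHom F2 ((FreeGroup.of 0)⁻¹)).comp chi := by
    apply FreeGroup.ext_hom
    intro i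
    fin_cases i <;> simp [q2, iota1, chi]
  have h := DFunLike.congr_fun this w
  simp only [MonoidHom.comp_apply] at h
  rw [h, zpowersHom_apply, inv_zpow, zpow_neg]

theorem q1_iota2 (w : F2) : q1 (iota2 w) = (FreeGroup.of 0) ^ (-(chi w).toAdd) := by
  have : q1.comp iota2 = (zpowersHom F2 ((FreeGroup.of 0)⁻¹)).comp chi := by
    apply FreeGroup.ext_hom
    intro i
    fin_cases i <;> simp [q1, iota2, chi]
  have h := DFunLike.congr_fun this w
  simp only [MonoidHom.comp_apply] at h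
  rw [h, zpowersHom_apply, inv_zpow, zpow_neg]

theorem exists_lift (w w' : F2) (h : (chi w).toAdd + (chi w').toAdd = 0) :
    ∃ r : F3, q1 r = w ∧ q2 r = w' := by
  refine ⟨iota1 w * (FreeGroup.of 0) ^ (-(chi w).toAdd) * iota2 w', ?_, ?_⟩
  · have e : q1 (FreeGroup.of 0) = FreeGroup.of 0 := by simp [q1]
    rw [map_mul, map_mul, q1_iota1, map_zpow, e, q1_iota2, mul_assoc, ← zpow_add]
    have : -(chi w).toAdd + -(chi w').toAdd = 0 := by linarith
    rw [this, zpow_zero, mul_one]
  · have e : q2 (FreeGroup.of 0) = (FreeGroup.of 0)⁻¹ := by simp [q2]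
    rw [map_mul, map_mul, q2_iota1, map_zpow, e, q2_iota2, inv_zpow, zpow_neg, inv_inv,
      inv_mul_cancel, one_mul]

/-- The lifting theorem for finitely presented groups. -/
theorem lifting {N : Type*} [Group N] (p1 p2 : N →* F2)
    (hchi : ∀ n, (chi (p1 n)).toAdd + (chi (p2 n)).toAdd = 0)
    {k : ℕ} (rels : Finset (FreeGroup (Fin k)))
    (e : PresentedGroup (rels : Set (FreeGroup (Fin k))) ≃* N)
    (T : Set (N × F3)) (hT : T.Finite) (hT1 : ∀ x ∈ T, q1 x.2 = p1 x.1 ∧ q2 x.2 = p2 x.1) :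
    ∃ J0 : ℤ, ∀ J ≥ J0, ∃ φ : N →* Equiv.Perm ℤ,
      ∀ x ∈ T, φ x.1 = FreeGroup.lift (rho J) x.2 := by
  classical
  choose w hw1 hw2 using fun i : Fin k =>
    exists_lift (p1 (e (PresentedGroup.of i))) (p2 (e (PresentedGroup.of i))) (hchi _)
  let Λ : FreeGroup (Fin k) →* F3 := FreeGroup.lift w
  let mk := PresentedGroup.mk (rels : Set (FreeGroup (Fin k)))
  have hΛ1 : ∀ z, q1 (Λ z) = p1 (e (mk z)) := by
    have : q1.comp Λ = (p1.comp e.toMonoidHom).comp mk := by
      apply FreeGroup.ext_hom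
      intro i
      simp only [MonoidHom.comp_apply, Λ, FreeGroup.lift_apply_of, hw1]
      rfl
    exact fun z => DFunLike.congr_fun this z
  have hΛ2 : ∀ z, q2 (Λ z) = p2 (e (mk z)) := by
    have : q2.comp Λ = (p2.comp e.toMonoidHom).comp mk := by
      apply FreeGroup.ext_hom
      intro i
      simp only [MonoidHom.comp_apply, Λ, FreeGroup.lift_apply_of, hw2]
      rfl
    exact fun z => DFunLike.congr_fun this z
  have hmk : ∀ r ∈ rels, mk r = 1 := fun r hr => PresentedGroup.one_of_mem hr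
  have hrel : ∀ r ∈ rels, ∃ J0 : ℤ, ∀ J ≥ J0, FreeGroup.lift (rho J) (Λ r) = 1 := by
    intro r hr
    apply local_trivial
    · rw [hΛ1, hmk r hr, map_one, map_one]
    · rw [hΛ2, hmk r hr, map_one, map_one]
  have hsurj : ∀ n : N, ∃ z, e (mk z) = n := by
    intro n
    obtain ⟨z, hz⟩ := PresentedGroup.mk_surjective (rels : Set (FreeGroup (Fin k))) (e.symm n)
    exact ⟨z, by show e (PresentedGroup.mk _ z) = n; rw [hz]; simp⟩
  choose z hz using hsurj
  have hTT : ∀ x ∈ T, ∃ J0 : ℤ, ∀ J ≥ J0,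
      FreeGroup.lift (rho J) (Λ (z x.1)) = FreeGroup.lift (rho J) x.2 := by
    intro x hx
    obtain ⟨J0, hJ0⟩ := local_trivial (Λ (z x.1) * x.2⁻¹)
      (by rw [map_mul, hΛ1, hz, map_inv, (hT1 x hx).1, mul_inv_cancel])
      (by rw [map_mul, hΛ2, hz, map_inv, (hT1 x hx).2, mul_inv_cancel])
    refine ⟨J0, fun J hJ => ?_⟩
    have := hJ0 J hJ
    rw [map_mul, map_inv, mul_inv_eq_one] at this
    exact this
  have hex1 : ∃ J0 : ℤ, ∀ J ≥ J0, ∀ r ∈ rels, FreeGroup.lift (rho J) (Λ r) = 1 := by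
    choose! f hf using hrel
    obtain ⟨B, hB⟩ := (rels.finite_toSet.image f).bddAbove
    exact ⟨B, fun J hJ r hr => hf r hr J (le_trans (hB ⟨r, hr, rfl⟩) hJ)⟩
  have hex2 : ∃ J0 : ℤ, ∀ J ≥ J0, ∀ x ∈ T,
      FreeGroup.lift (rho J) (Λ (z x.1)) = FreeGroup.lift (rho J) x.2 := by
    choose! f hf using hTT
    obtain ⟨B, hB⟩ := (hT.image f).bddAbove
    exact ⟨B, fun J hJ x hx => hf x hx J (le_trans (hB ⟨x, hx, rfl⟩) hJ)⟩
  obtain ⟨J1, hJ1⟩ := hex1
  obtain ⟨J2, hJ2⟩ := hex2
  refine ⟨max J1 J2, fun J hJ => ?_⟩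
  have hr := hJ1 J (le_trans (le_max_left _ _) hJ)
  have hx := hJ2 J (le_trans (le_max_right _ _) hJ)
  let f : Fin k → Equiv.Perm ℤ := fun i => FreeGroup.lift (rho J) (w i)
  have hf : ∀ y, FreeGroup.lift f y = FreeGroup.lift (rho J) (Λ y) := by
    have : FreeGroup.lift f = (FreeGroup.lift (rho J)).comp Λ := by
      apply FreeGroup.ext_hom
      intro i
      simp [f, Λ]
    exact fun y => DFunLike.congr_fun this y
  let g : PresentedGroup (rels : Set (FreeGroup (Fin k))) →* Equiv.Perm ℤ :=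
    PresentedGroup.toGroup (f := f) (fun r hr' => by rw [hf]; exact hr r hr')
  have hg : ∀ y, g (mk y) = FreeGroup.lift f y := by
    have : g.comp mk = FreeGroup.lift f := by
      apply FreeGroup.ext_hom
      intro i
      simp only [MonoidHom.comp_apply, FreeGroup.lift_apply_of]
      exact PresentedGroup.toGroup.of _
    exact fun y => DFunLike.congr_fun this y
  refine ⟨g.comp e.symm.toMonoidHom, fun x hxT => ?_⟩
  show g (e.symm x.1) = _
  have : e.symm x.1 = mk (z x.1) := by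
    rw [MulEquiv.symm_apply_eq]
    exact (hz x.1).symm
  rw [this, hg, hf]
  exact hx x hxT

/-- the commutation relation fails in the permutation groups -/
theorem not_commute (J : ℤ) :
    ¬ Commute (shiftZ ^ (J + 1) * Equiv.swap (0 : ℤ) 1 * (shiftZ ^ (J + 1))⁻¹)
      (Equiv.swap J (J + 1)) := by
  intro h
  have hz : ∀ (n m : ℤ), (shiftZ ^ n) m = m + n := by
    intro n
    induction n using Int.induction_on with
    | zero => intro m; simp
    | succ n ih =>
      intro m
      rw [zpow_add_one, Equiv.Perm.mul_apply, ih]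
      simp [shiftZ]; ring
    | pred n ih =>
      intro m
      rw [zpow_sub_one, Equiv.Perm.mul_apply, ih]
      have : shiftZ⁻¹ m = m - 1 := by
        rw [Equiv.Perm.inv_eq_iff_eq]; simp [shiftZ]
      rw [this]; ring
  have h1 := congrArg (fun f : Equiv.Perm ℤ => f J) h.eq
  simp only [Equiv.Perm.mul_apply, ← zpow_neg, hz, Equiv.swap_apply_left] at h1
  have e1 : J + 1 + -(J + 1) = 0 := by ring
  have e2 : J + -(J + 1) = -1 := by ring
  rw [e1, e2, Equiv.swap_apply_left,
    Equiv.swap_apply_of_ne_of_ne (by norm_num : (-1 : ℤ) ≠ 0) (by norm_num : (-1 : ℤ) ≠ 1)] at h1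
  have e3 : -1 + (J + 1) = J := by ring
  rw [e3, Equiv.swap_apply_left] at h1
  omega

end Pool.Agent.MP_4804cd_al
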