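import Mathlib

/-!
An abstract discrete Morse argument: paths in a group with two commuting kinds of moves
can be pushed into a window of two consecutive levels.
-/

set_option autoImplicit false

namespace Pool.Agent.MP_4804cd_al

/-- The data of the Morse argument. -/
structure MorseData (G : Type*) [Group G] where
  YL : Set G
  YR : Set G
  invL : ∀ l ∈ YL, l⁻¹ ∈ YL
  invR : ∀ r ∈ YR, r⁻¹ ∈ YR
  l1 : G → ℤ
  l2 : G → ℤ
  hL : ∀ l ∈ YL, ∀ a b, l2 (a * l * b) = l2 (a * b)
  hR : ∀ r ∈ YR, ∀ a b, l1 (a * r * b) = l1 (a * b)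
  stepL : ∀ l ∈ YL, ∀ g, |l1 (l * g) - l1 g| ≤ 1
  stepR : ∀ r ∈ YR, ∀ g, |l2 (r * g) - l2 g| ≤ 1
  lowL : ∀ g, ∃ l ∈ YL, l1 (l * g) = l1 g - 1
  lowR : ∀ g, ∃ r ∈ YR, l2 (r * g) = l2 g - 1
  upL : ∀ g, ∃ l ∈ YL, l1 (l * g) = l1 g + 1
  upR : ∀ g, ∃ r ∈ YR, l2 (r * g) = l2 g + 1
  comm : ∀ l ∈ YL, ∀ r ∈ YR, l * r * l⁻¹ * r⁻¹ ∈
    Subgroup.closure {z : G | (z ∈ YL ∨ z ∈ YR) ∧ ∀ g, l1 (z * g) + l2 (z * g) = l1 g + l2 g}

namespace MorseData

variable {G : Type*} [Group G] (D : MorseData G)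

/-- total level -/
def lev (g : G) : ℤ := D.l1 g + D.l2 g

/-- all moves -/
def Y : Set G := {y | y ∈ D.YL ∨ y ∈ D.YR}

/-- moves that do not change any level -/
def Y0 : Set G := {z : G | (z ∈ D.YL ∨ z ∈ D.YR) ∧ ∀ g, D.l1 (z * g) + D.l2 (z * g) =
  D.l1 g + D.l2 g}

/-- window -/
def Win (s t : ℤ) : Set G := {g | s ≤ D.lev g ∧ D.lev g ≤ t}

/-- a step within a set -/
def Step (S : Set G) (g h : G) : Prop := g ∈ S ∧ h ∈ S ∧ ∃ y ∈ D.Y, h = y * g

/-- a path within a set -/
def Path (S : Set G) : G → G → Prop := Relation.ReflTransGen (D.Step S)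

theorem invY {y : G} (hy : y ∈ D.Y) : y⁻¹ ∈ D.Y := by
  rcases hy with h | h
  · exact Or.inl (D.invL _ h)
  · exact Or.inr (D.invR _ h)

theorem step_symm {S : Set G} {g h : G} (H : D.Step S g h) : D.Step S h g := by
  obtain ⟨h1, h2, y, hy, rfl⟩ := H
  exact ⟨h2, h1, y⁻¹, D.invY hy, by simp⟩

theorem path_symm {S : Set G} {g h : G} (H : D.Path S g h) : D.Path S h g := by
  induction H with
  | refl => exact Relation.ReflTransGen.refl
  | tail _ h2 ih => exact Relation.ReflTransGen.head (D.step_symm h2) ih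

theorem path_trans {S : Set G} {g h k : G} (H : D.Path S g h) (H' : D.Path S h k) :
    D.Path S g k := Relation.ReflTransGen.trans H H'

theorem path_mono {S T : Set G} (hST : S ⊆ T) {g h : G} (H : D.Path S g h) : D.Path T g h := by
  induction H with
  | refl => exact Relation.ReflTransGen.refl
  | tail _ h2 ih => exact ih.tail ⟨hST h2.1, hST h2.2.1, h2.2.2⟩

theorem path_single {S : Set G} {g y : G} (hg : g ∈ S) (hh : y * g ∈ S) (hy : y ∈ D.Y) :
    D.Path S g (y * g) := Relation.ReflTransGen.single ⟨hg, hh, y, hy, rfl⟩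

/-- the opposite data: levels are negated -/
def neg : MorseData G where
  YL := D.YL
  YR := D.YR
  invL := D.invL
  invR := D.invR
  l1 := fun g => - D.l1 g
  l2 := fun g => - D.l2 g
  hL := fun l hl a b => by rw [D.hL l hl]
  hR := fun r hr a b => by rw [D.hR r hr]
  stepL := fun l hl g => by
    have := D.stepL l hl g
    rw [abs_le] at this ⊢
    constructor <;> linarith [this.1, this.2]
  stepR := fun l hl g => by
    have := D.stepR l hl g
    rw [abs_le] at this ⊢
    constructor <;> linarith [this.1, this.2]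
  lowL := fun g => by
    obtain ⟨l, hl, h⟩ := D.upL g
    exact ⟨l, hl, by rw [h]; ring⟩
  lowR := fun g => by
    obtain ⟨l, hl, h⟩ := D.upR g
    exact ⟨l, hl, by rw [h]; ring⟩
  upL := fun g => by
    obtain ⟨l, hl, h⟩ := D.lowL g
    exact ⟨l, hl, by rw [h]; ring⟩
  upR := fun g => by
    obtain ⟨l, hl, h⟩ := D.lowR g
    exact ⟨l, hl, by rw [h]; ring⟩
  comm := fun l hl r hr => by
    refine Subgroup.closure_mono ?_ (D.comm l hl r hr)
    rintro z ⟨h1, h2⟩
    refine ⟨h1, fun g => ?_⟩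
    have := h2 g
    linarith

theorem neg_lev (g : G) : D.neg.lev g = - D.lev g := by
  simp only [lev, neg]; ring

theorem mem_win (s t : ℤ) (g : G) : g ∈ D.Win s t ↔ s ≤ D.lev g ∧ D.lev g ≤ t := Iff.rfl

theorem neg_win (s t : ℤ) : D.neg.Win (-t) (-s) = D.Win s t := by
  ext g
  rw [mem_win, mem_win, neg_lev]
  constructor <;> rintro ⟨h1, h2⟩ <;> constructor <;> linarith

theorem neg_path (S : Set G) (g h : G) : D.neg.Path S g h ↔ D.Path S g h := Iff.rfl

theorem closure_lev {v : G} (hv : v ∈ Subgroup.closure D.Y0) :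
    ∀ g, D.lev (v * g) = D.lev g := by
  induction hv using Subgroup.closure_induction with
  | mem z hz => exact hz.2
  | one => intro g; rw [one_mul]
  | mul a b ha hb iha ihb => intro g; rw [mul_assoc, iha, ihb]
  | inv a ha iha =>
    intro g
    have := iha (a⁻¹ * g)
    rw [mul_inv_cancel_left] at this
    exact this.symm

theorem closure_path {s t : ℤ} {v : G} (hv : v ∈ Subgroup.closure D.Y0) :
    ∀ g, g ∈ D.Win s t → D.Path (D.Win s t) g (v * g) := by
  induction hv using Subgroup.closure_induction with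
  | mem z hz =>
    intro g hg
    have h1 : D.lev (z * g) = D.lev g := hz.2 g
    refine D.path_single hg ?_ hz.1
    rw [mem_win, h1]
    exact hg
  | one =>
    intro g hg
    rw [one_mul]
    exact Relation.ReflTransGen.refl
  | mul a b ha hb iha ihb =>
    intro g hg
    have hbg : b * g ∈ D.Win s t := by
      rw [mem_win, D.closure_lev hb g]
      exact hg
    rw [mul_assoc]
    exact D.path_trans (ihb g hg) (iha (b * g) hbg)
  | inv a ha iha =>
    intro g hg
    have hbg : a⁻¹ * g ∈ D.Win s t := by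
      rw [mem_win, D.closure_lev (inv_mem ha) g]
      exact hg
    have := iha (a⁻¹ * g) hbg
    rw [mul_inv_cancel_left] at this
    exact D.path_symm this

/-- level bookkeeping -/
theorem lev_L {l : G} (hl : l ∈ D.YL) (g : G) : D.lev (l * g) = D.l1 (l * g) + D.l2 g := by
  have := D.hL l hl 1 g
  rw [one_mul, one_mul] at this
  simp only [lev, this]

theorem lev_R {r : G} (hr : r ∈ D.YR) (g : G) : D.lev (r * g) = D.l1 g + D.l2 (r * g) := by
  have := D.hR r hr 1 g
  rw [one_mul, one_mul] at this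
  simp only [lev, this]

theorem lev_RL {l r : G} (hl : l ∈ D.YL) (hr : r ∈ D.YR) (g : G) :
    D.lev (r * (l * g)) = D.l1 (l * g) + D.l2 (r * g) := by
  have h1 := D.hR r hr 1 (l * g)
  rw [one_mul, one_mul] at h1
  have h2 := D.hL l hl r g
  rw [mul_assoc] at h2
  simp only [lev, h1, h2]

theorem lev_LR {l r : G} (hl : l ∈ D.YL) (hr : r ∈ D.YR) (g : G) :
    D.lev (l * (r * g)) = D.l1 (l * g) + D.l2 (r * g) := by
  have h1 := D.hL l hl 1 (r * g)
  rw [one_mul, one_mul] at h1
  have h2 := D.hR r hr l g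
  rw [mul_assoc] at h2
  simp only [lev, h1, h2]

theorem lev_step {y : G} (hy : y ∈ D.Y) (g : G) : |D.lev (y * g) - D.lev g| ≤ 1 := by
  rcases hy with hy | hy
  · rw [D.lev_L hy]
    have := D.stepL y hy g
    simp only [lev]
    convert this using 2
    ring
  · rw [D.lev_R hy]
    have := D.stepR y hy g
    simp only [lev]
    convert this using 2
    ring

/-- commutation square: from `l g` go to `r l g`, then `l r g`. -/
theorem square {s t : ℤ} {l r : G} (hl : l ∈ D.YL) (hr : r ∈ D.YR) {g : G}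
    (h : r * (l * g) ∈ D.Win s t) : D.Path (D.Win s t) (r * (l * g)) (l * (r * g)) := by
  have := D.closure_path (s := s) (t := t) (D.comm l hl r hr) _ h
  have e : l * r * l⁻¹ * r⁻¹ * (r * (l * g)) = l * (r * g) := by group
  rw [e] at this
  exact this

/-- left and right lower neighbours are connected below -/
theorem low_LR {s t : ℤ} (hst : s < t) {g : G} (hg : D.lev g = t + 1) {l r : G}
    (hl : l ∈ D.YL) (hr : r ∈ D.YR) (h1 : D.lev (l * g) = t) (h2 : D.lev (r * g) = t) :
    D.Path (D.Win s t) (l * g) (r * g) := by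
  have e1 := D.lev_L hl g
  have e2 := D.lev_R hr g
  have e3 := D.lev_RL hl hr g
  have e0 : D.lev g = D.l1 g + D.l2 g := rfl
  have m1 : l * g ∈ D.Win s t := by rw [mem_win]; omega
  have m2 : r * g ∈ D.Win s t := by rw [mem_win]; omega
  have m3 : r * (l * g) ∈ D.Win s t := by rw [mem_win]; omega
  have e4 := D.lev_LR hl hr g
  have m4 : l * (r * g) ∈ D.Win s t := by rw [mem_win]; omega
  refine D.path_trans (D.path_single m1 m3 (Or.inr hr)) (D.path_trans (D.square hl hr m3) ?_)
  exact D.path_symm (D.path_single m2 m4 (Or.inl hl))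

/-- any two lower neighbours are connected below -/
theorem low_any {s t : ℤ} (hst : s < t) {g : G} (hg : D.lev g = t + 1) {y z : G}
    (hy : y ∈ D.Y) (hz : z ∈ D.Y) (h1 : D.lev (y * g) = t) (h2 : D.lev (z * g) = t) :
    D.Path (D.Win s t) (y * g) (z * g) := by
  have e0 : D.lev g = D.l1 g + D.l2 g := rfl
  rcases hy with hy | hy <;> rcases hz with hz | hz
  · obtain ⟨r, hr, h⟩ := D.lowR g
    have h3 : D.lev (r * g) = t := by
      have := D.lev_R hr g
      omega
    exact D.path_trans (D.low_LR hst hg hy hr h1 h3) (D.path_symm (D.low_LR hst hg hz hr h2 h3))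
  · exact D.low_LR hst hg hy hz h1 h2
  · exact D.path_symm (D.low_LR hst hg hz hy h2 h1)
  · obtain ⟨l, hl, h⟩ := D.lowL g
    have h3 : D.lev (l * g) = t := by
      have := D.lev_L hl g
      omega
    exact D.path_trans (D.path_symm (D.low_LR hst hg hl hy h3 h1)) (D.low_LR hst hg hl hz h3 h2)

/-- the shadow relation -/
def Sh (t : ℤ) (g g' : G) : Prop :=
  (D.lev g ≤ t ∧ g' = g) ∨ (D.lev g = t + 1 ∧ D.lev g' = t ∧ ∃ y ∈ D.Y, g' = y * g)

theorem exists_sh {t : ℤ} {g : G} (hg : D.lev g ≤ t + 1) : ∃ g', D.Sh t g g' := by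
  by_cases h : D.lev g ≤ t
  · exact ⟨g, Or.inl ⟨h, rfl⟩⟩
  · have h' : D.lev g = t + 1 := by omega
    obtain ⟨l, hl, hh⟩ := D.lowL g
    have e0 : D.lev g = D.l1 g + D.l2 g := rfl
    have := D.lev_L hl g
    exact ⟨l * g, Or.inr ⟨h', by omega, l, Or.inl hl, rfl⟩⟩

theorem sh_unique {s t : ℤ} (hst : s < t) {g g' g'' : G} (h1 : D.Sh t g g') (h2 : D.Sh t g g'') :
    D.Path (D.Win s t) g' g'' := by
  rcases h1 with ⟨a1, rfl⟩ | ⟨a1, a2, y, hy, rfl⟩ <;>
    rcases h2 with ⟨b1, rfl⟩ | ⟨b1, b2, z, hz, rfl⟩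
  · exact Relation.ReflTransGen.refl
  · omega
  · omega
  · exact D.low_any hst a1 hy hz a2 b2

/-- pushing one horizontal top step down -/
theorem push_top {s t : ℤ} (hst : s < t) {g y : G} (hy : y ∈ D.Y) (hg : D.lev g = t + 1)
    (hyg : D.lev (y * g) = t + 1) {g' h' : G} (h1 : D.Sh t g g') (h2 : D.Sh t (y * g) h') :
    D.Path (D.Win s t) g' h' := by
  have e0 : D.lev g = D.l1 g + D.l2 g := rfl
  rcases hy with hy | hy
  · obtain ⟨r, hr, h⟩ := D.lowR g
    have a1 := D.lev_R hr g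
    have a2 := D.lev_L hy g
    have a3 := D.lev_RL hy hr g
    have a4 := D.lev_LR hy hr g
    have s1 : D.Sh t g (r * g) := Or.inr ⟨hg, by omega, r, Or.inr hr, rfl⟩
    have s2 : D.Sh t (y * g) (r * (y * g)) := Or.inr ⟨hyg, by omega, r, Or.inr hr, rfl⟩
    have m1 : r * g ∈ D.Win s t := by rw [mem_win]; omega
    have m2 : y * (r * g) ∈ D.Win s t := by rw [mem_win]; omega
    have m3 : r * (y * g) ∈ D.Win s t := by rw [mem_win]; omega
    refine D.path_trans (D.sh_unique hst h1 s1) (D.path_trans ?_ (D.sh_unique hst s2 h2))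
    exact D.path_trans (D.path_single m1 m2 (Or.inl hy)) (D.path_symm (D.square hy hr m3))
  · obtain ⟨l, hl, h⟩ := D.lowL g
    have a1 := D.lev_L hl g
    have a2 := D.lev_R hy g
    have a3 := D.lev_RL hl hy g
    have a4 := D.lev_LR hl hy g
    have s1 : D.Sh t g (l * g) := Or.inr ⟨hg, by omega, l, Or.inl hl, rfl⟩
    have s2 : D.Sh t (y * g) (l * (y * g)) := Or.inr ⟨hyg, by omega, l, Or.inl hl, rfl⟩
    have m1 : l * g ∈ D.Win s t := by rw [mem_win]; omega
    have m2 : y * (l * g) ∈ D.Win s t := by rw [mem_win]; omega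
    have m3 : l * (y * g) ∈ D.Win s t := by rw [mem_win]; omega
    refine D.path_trans (D.sh_unique hst h1 s1) (D.path_trans ?_ (D.sh_unique hst s2 h2))
    exact D.path_trans (D.path_single m1 m2 (Or.inr hy)) (D.square hl hy m2)

theorem step_sh {s t : ℤ} (hst : s < t) {g h : G} (H : D.Step (D.Win s (t + 1)) g h)
    {g' h' : G} (h1 : D.Sh t g g') (h2 : D.Sh t h h') : D.Path (D.Win s t) g' h' := by
  obtain ⟨⟨a1, a2⟩, ⟨b1, b2⟩, y, hy, rfl⟩ := H
  have hstep := D.lev_step hy g
  rw [abs_le] at hstep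
  by_cases c1 : D.lev g ≤ t <;> by_cases c2 : D.lev (y * g) ≤ t
  · rcases h1 with ⟨-, rfl⟩ | ⟨h1, -⟩
    · rcases h2 with ⟨-, rfl⟩ | ⟨h2, -⟩
      · exact D.path_single ⟨a1, c1⟩ ⟨b1, c2⟩ hy
      · omega
    · omega
  · -- `g` is a lower neighbour of `y * g`
    have s1 : D.Sh t (y * g) g :=
      Or.inr ⟨by omega, by omega, y⁻¹, D.invY hy, by simp⟩
    rcases h1 with ⟨-, rfl⟩ | ⟨h1, -⟩
    · exact D.sh_unique hst s1 h2
    · omega
  · have s1 : D.Sh t g (y * g) := Or.inr ⟨by omega, by omega, y, hy, rfl⟩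
    rcases h2 with ⟨-, rfl⟩ | ⟨h2, -⟩
    · exact D.sh_unique hst h1 s1
    · omega
  · exact D.push_top hst hy (by omega) (by omega) h1 h2

theorem path_sh {s t : ℤ} (hst : s < t) {g h : G} (H : D.Path (D.Win s (t + 1)) g h) :
    ∀ {g' h' : G}, D.Sh t g g' → D.Sh t h h' → D.Path (D.Win s t) g' h' := by
  induction H with
  | refl => intro g' h' h1 h2; exact D.sh_unique hst h1 h2
  | tail _ hstep ih =>
    intro g' h' h1 h2
    obtain ⟨k, hk⟩ := D.exists_sh hstep.1.2
    exact D.path_trans (ih h1 hk) (D.step_sh hst hstep hk h2)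

theorem path_down_one {s t : ℤ} (hst : s < t) {g h : G} (H : D.Path (D.Win s (t + 1)) g h)
    (hg : g ∈ D.Win s t) (hh : h ∈ D.Win s t) : D.Path (D.Win s t) g h :=
  D.path_sh hst H (Or.inl ⟨hg.2, rfl⟩) (Or.inl ⟨hh.2, rfl⟩)

theorem path_down {s t : ℤ} (hst : s < t) (n : ℕ) {g h : G} (hg : g ∈ D.Win s t)
    (hh : h ∈ D.Win s t) (H : D.Path (D.Win s (t + n)) g h) : D.Path (D.Win s t) g h := by
  induction n with
  | zero => simpa using H
  | succ n ih =>
    apply ih
    have e : t + ((n + 1 : ℕ) : ℤ) = (t + n) + 1 := by push_cast; ring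
    rw [e] at H
    exact D.path_down_one (by omega) H ⟨hg.1, by have := hg.2; omega⟩
      ⟨hh.1, by have := hh.2; omega⟩

theorem path_up {s t : ℤ} (hst : s < t) (n : ℕ) {g h : G} (hg : g ∈ D.Win s t)
    (hh : h ∈ D.Win s t) (H : D.Path (D.Win (s - n) t) g h) : D.Path (D.Win s t) g h := by
  have h1 : D.neg.Win (-t) (-s + n) = D.Win (s - n) t := by
    rw [← D.neg_win (s - n) t]
    congr 1
    ring
  have h2 := D.neg.path_down (s := -t) (t := -s) (by omega) n (g := g) (h := h)
    (by rw [neg_win]; exact hg) (by rw [neg_win]; exact hh) (by rw [h1]; exact H)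
  rw [neg_win] at h2
  exact h2

/-- every path is bounded -/
theorem path_bounded {g h : G} (H : D.Path Set.univ g h) (s t : ℤ) :
    ∃ n : ℕ, D.Path (D.Win (s - n) (t + n)) g h := by
  induction H with
  | refl => exact ⟨0, Relation.ReflTransGen.refl⟩
  | @tail b c _ hstep ih =>
    obtain ⟨n, hn⟩ := ih
    refine ⟨n + (|D.lev b| + |D.lev c| + |s| + |t|).toNat, ?_⟩
    have e1 : ((|D.lev b| + |D.lev c| + |s| + |t|).toNat : ℤ) =
        |D.lev b| + |D.lev c| + |s| + |t| := Int.toNat_of_nonneg (by positivity)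
    have b1 := abs_le.1 (le_refl |D.lev b|)
    have c1 := abs_le.1 (le_refl |D.lev c|)
    have s1 := abs_le.1 (le_refl |s|)
    have t1 := abs_le.1 (le_refl |t|)
    have p1 := abs_nonneg (D.lev b)
    have p2 := abs_nonneg (D.lev c)
    have p3 := abs_nonneg s
    have p4 := abs_nonneg t
    refine Relation.ReflTransGen.tail (D.path_mono ?_ hn) ⟨?_, ?_, hstep.2.2⟩
    · intro k hk
      rw [mem_win] at hk ⊢
      push_cast
      rw [e1]
      omega
    · rw [mem_win]
      push_cast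
      rw [e1]
      omega
    · rw [mem_win]
      push_cast
      rw [e1]
      omega

theorem path_univ {v : G} (hv : v ∈ Subgroup.closure D.Y) : ∀ g, D.Path Set.univ g (v * g) := by
  induction hv using Subgroup.closure_induction with
  | mem z hz => intro g; exact D.path_single trivial trivial hz
  | one => intro g; rw [one_mul]; exact Relation.ReflTransGen.refl
  | mul a b ha hb iha ihb =>
    intro g
    rw [mul_assoc]
    exact D.path_trans (ihb g) (iha (b * g))
  | inv a ha iha =>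
    intro g
    have := iha (a⁻¹ * g)
    rw [mul_inv_cancel_left] at this
    exact D.path_symm this

/-- The connectivity theorem. -/
theorem connected (hY : Subgroup.closure D.Y = ⊤) {s t : ℤ} (hst : s < t) {g h : G}
    (hg : g ∈ D.Win s t) (hh : h ∈ D.Win s t) : D.Path (D.Win s t) g h := by
  have h1 : D.Path Set.univ g h := by
    have := D.path_univ (v := h * g⁻¹) (by rw [hY]; trivial) g
    simpa using this
  obtain ⟨n, hn⟩ := D.path_bounded h1 s t
  refine D.path_up hst n hg hh (D.path_down (by omega) n ?_ ?_ hn)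
  · exact ⟨by have := hg.1; omega, hg.2⟩
  · exact ⟨by have := hh.1; omega, hh.2⟩

/-- Finite generation of the stabiliser of the class map. -/
theorem fg_of_class (hY : Subgroup.closure D.Y = ⊤) (hfin : D.Y.Finite) {C : Type*}
    (cl : G → C) (N : Subgroup G) (hcl : ∀ g h, cl g = cl h ↔ g⁻¹ * h ∈ N)
    (s t : ℤ) (hst : s < t) (hlev : ∀ g h, cl g = cl h → D.lev g = D.lev h)
    (h1 : 1 ∈ D.Win s t) (hCfin : (cl '' D.Win s t).Finite) : N.FG := by
  classical
  obtain ⟨rep, hrep⟩ : ∃ rep : C → G, ∀ g, cl (rep (cl g)) = cl g := by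
    refine ⟨fun c => if h : ∃ g, cl g = c then h.choose else 1, fun g => ?_⟩
    have h : ∃ g', cl g' = cl g := ⟨g, rfl⟩
    simp only [h, dif_pos]
    exact h.choose_spec
  have hmu : ∀ g, (rep (cl g))⁻¹ * g ∈ N := fun g => (hcl _ _).1 (hrep g)
  let f : C × G × C → G := fun x => (rep x.1)⁻¹ * x.2.1 * rep x.2.2
  let A : Set G := f '' ((cl '' D.Win s t) ×ˢ (D.Y ×ˢ (cl '' D.Win s t)))
  have hA : A.Finite := (hCfin.prod (hfin.prod hCfin)).image f
  let B : Set G := (A ∩ N) ∪ {(rep (cl 1))⁻¹ * 1}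
  have hB : B.Finite := (hA.subset Set.inter_subset_left).union (Set.finite_singleton _)
  rw [Subgroup.fg_iff]
  refine ⟨B, le_antisymm ?_ ?_, hB⟩
  · rw [Subgroup.closure_le]
    rintro z (⟨-, hz⟩ | hz)
    · exact hz
    · rw [Set.mem_singleton_iff] at hz
      rw [hz]
      exact hmu 1
  · intro n hn
    have key : ∀ h, D.Path (D.Win s t) 1 h →
        (rep (cl h))⁻¹ * h ∈ Subgroup.closure B := by
      intro h H
      induction H with
      | refl => exact Subgroup.subset_closure (Or.inr rfl)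
      | @tail b c _ hstep ih =>
        obtain ⟨hb, hc, y, hy, rfl⟩ := hstep
        have e : (rep (cl (y * b)))⁻¹ * (y * b) =
            ((rep (cl (y * b)))⁻¹ * y * rep (cl b)) * ((rep (cl b))⁻¹ * b) := by group
        rw [e]
        refine mul_mem (Subgroup.subset_closure (Or.inl ⟨?_, ?_⟩)) ih
        · exact ⟨(cl (y * b), y, cl b), ⟨⟨_, hc, rfl⟩, hy, ⟨_, hb, rfl⟩⟩, rfl⟩
        · have e2 : (rep (cl (y * b)))⁻¹ * y * rep (cl b) =
              ((rep (cl (y * b)))⁻¹ * (y * b)) * ((rep (cl b))⁻¹ * b)⁻¹ := by group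
          show _ ∈ N
          rw [e2]
          exact mul_mem (hmu _) (inv_mem (hmu _))
    have hcn : cl 1 = cl n := (hcl _ _).2 (by simpa using hn)
    have hnw : n ∈ D.Win s t := by
      rw [mem_win, ← hlev 1 n hcn]
      exact h1
    have h2 := key n (D.connected hY hst h1 hnw)
    rw [← hcn] at h2
    have h3 : (rep (cl 1))⁻¹ * 1 ∈ Subgroup.closure B := Subgroup.subset_closure (Or.inr rfl)
    have e : n = ((rep (cl 1))⁻¹ * 1)⁻¹ * ((rep (cl 1))⁻¹ * n) := by group
    rw [e]
    exact mul_mem (inv_mem h3) h2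

end MorseData

end Pool.Agent.MP_4804cd_al
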