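import Pool.Agent.MP_4804cd_al.OneDim
import Pool.Agent.MP_4804cd_al.Morse
import Pool.Agent.MP_4804cd_al.Kernel

/-!
A group generated by four elements `g i` with `(g (i+1))⁻¹ g i g (i+1) = (g i) ^ 8`, together
with a homomorphism realising the two pairs of permutations, has a finitely generated subgroup
which is not finitely presented.
-/

set_option autoImplicit false

namespace Pool.Agent.MP_4804cd_al

abbrev PP : Type := Equiv.Perm Pt × Equiv.Perm Pt

/-- the prescribed images -/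
def yy : Fin 4 → PP
  | 0 => (pa, 1)
  | 1 => (1, pa)
  | 2 => (pc, 1)
  | 3 => (1, pc)

/-- The setting. -/
structure Setting (G : Type) [Group G] where
  g : Fin 4 → G
  hgen : Subgroup.closure (Set.range g) = ⊤
  hrel : ∀ i, (g (i + 1))⁻¹ * g i * g (i + 1) = g i ^ 8
  p : G →* PP
  hp : ∀ i, p (g i) = yy i

namespace Setting

variable {G : Type} [Group G] (S : Setting G)

/-- left generators -/
def L : Fin 2 → G
  | 0 => S.g 0
  | 1 => S.g 2

/-- right generators -/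
def R : Fin 2 → G
  | 0 => S.g 1
  | 1 => S.g 3

theorem goodPair (i j : Fin 2) : GoodPair (S.L i) (S.R j) := by
  fin_cases i <;> fin_cases j
  · exact GoodPair.of_rel (S.hrel 0)
  · exact (GoodPair.of_rel (S.hrel 3)).symm
  · exact (GoodPair.of_rel (S.hrel 1)).symm
  · exact GoodPair.of_rel (S.hrel 2)

theorem p_L (i : Fin 2) : S.p (S.L i) = (pp i, 1) := by
  fin_cases i
  · exact S.hp 0
  · exact S.hp 2

theorem p_R (i : Fin 2) : S.p (S.R i) = (1, pp i) := by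
  fin_cases i
  · exact S.hp 1
  · exact S.hp 3

theorem p_L_zpow (i : Fin 2) (k : ℤ) : S.p (S.L i ^ k) = (pp i ^ k, 1) := by
  rw [map_zpow, p_L]
  ext1 <;> simp

theorem p_R_zpow (i : Fin 2) (k : ℤ) : S.p (S.R i ^ k) = (1, pp i ^ k) := by
  rw [map_zpow, p_R]
  ext1 <;> simp

/-- left state -/
def st1 (a : G) : Pt := (S.p a).1 (0, 1)

/-- right state -/
def st2 (a : G) : Pt := (S.p a).2 (0, 1)

/-- left moves -/
def YL : Set G := {y | ∃ (i : Fin 2) (k : ℤ), |k| ≤ 7 ∧ y = S.L i ^ k}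

/-- right moves -/
def YR : Set G := {y | ∃ (i : Fin 2) (k : ℤ), |k| ≤ 7 ∧ y = S.R i ^ k}

theorem st1_mul (a b : G) : S.st1 (a * b) = (S.p a).1 (S.st1 b) := by
  simp [st1]

theorem st2_mul (a b : G) : S.st2 (a * b) = (S.p a).2 (S.st2 b) := by
  simp [st2]

theorem p_V7 (i j : Fin 2) : ∀ v ∈ V7 (S.L i) (S.R j), S.p v = 1 := by
  intro v hv
  have hle : V7 (S.L i) (S.R j) ≤ S.p.ker := by
    rw [V7, Subgroup.closure_le]
    rintro z (rfl | hz)
    · show S.p _ = 1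
      rw [map_pow, p_L]
      ext1
      · exact pp_seven i
      · simp
    · rw [Set.mem_singleton_iff] at hz
      subst hz
      show S.p _ = 1
      rw [map_pow, p_R]
      ext1
      · simp
      · exact pp_seven j
  exact hle hv

theorem p_L7 (i : Fin 2) : S.p (S.L i ^ 7) = 1 := S.p_V7 i 0 _ (a7_mem _ _)
theorem p_R7 (j : Fin 2) : S.p (S.R j ^ 7) = 1 := S.p_V7 0 j _ (b7_mem _ _)

/-- the Morse data -/
def morse : MorseData G where
  YL := S.YL
  YR := S.YR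
  invL := by
    rintro l ⟨i, k, hk, rfl⟩
    exact ⟨i, -k, by rwa [abs_neg], by rw [zpow_neg]⟩
  invR := by
    rintro l ⟨i, k, hk, rfl⟩
    exact ⟨i, -k, by rwa [abs_neg], by rw [zpow_neg]⟩
  l1 := fun a => lv (S.st1 a)
  l2 := fun a => lv (S.st2 a)
  hL := by
    rintro l ⟨i, k, hk, rfl⟩ a b
    rw [mul_assoc, st2_mul, st2_mul, S.p_L_zpow, st2_mul]
    rfl
  hR := by
    rintro l ⟨i, k, hk, rfl⟩ a b
    rw [mul_assoc, st1_mul, st1_mul, S.p_R_zpow, st1_mul]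
    rfl
  stepL := by
    rintro l ⟨i, k, hk, rfl⟩ a
    rw [st1_mul, S.p_L_zpow]
    exact lv_step i k _
  stepR := by
    rintro l ⟨i, k, hk, rfl⟩ a
    rw [st2_mul, S.p_R_zpow]
    exact lv_step i k _
  lowL := by
    intro a
    obtain ⟨i, k, hk, h⟩ := lv_low (S.st1 a)
    refine ⟨S.L i ^ k, ⟨i, k, hk, rfl⟩, ?_⟩
    rw [st1_mul, S.p_L_zpow]
    exact h
  lowR := by
    intro a
    obtain ⟨i, k, hk, h⟩ := lv_low (S.st2 a)
    refine ⟨S.R i ^ k, ⟨i, k, hk, rfl⟩, ?_⟩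
    rw [st2_mul, S.p_R_zpow]
    exact h
  upL := by
    intro a
    obtain ⟨i, k, hk, h⟩ := lv_up (S.st1 a)
    refine ⟨S.L i ^ k, ⟨i, k, hk, rfl⟩, ?_⟩
    rw [st1_mul, S.p_L_zpow]
    exact h
  upR := by
    intro a
    obtain ⟨i, k, hk, h⟩ := lv_up (S.st2 a)
    refine ⟨S.R i ^ k, ⟨i, k, hk, rfl⟩, ?_⟩
    rw [st2_mul, S.p_R_zpow]
    exact h
  comm := by
    rintro l ⟨i, k, hk, rfl⟩ r ⟨j, m, hm, rfl⟩
    have hle : V7 (S.L i) (S.R j) ≤ Subgroup.closure {z : G | (z ∈ S.YL ∨ z ∈ S.YR) ∧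
        ∀ g, lv (S.st1 (z * g)) + lv (S.st2 (z * g)) = lv (S.st1 g) + lv (S.st2 g)} := by
      rw [V7]
      apply Subgroup.closure_mono
      rintro z (rfl | hz)
      · refine ⟨Or.inl ⟨i, 7, by norm_num, by norm_cast⟩, fun a => ?_⟩
        rw [st1_mul, st2_mul, S.p_L7]
        rfl
      · rw [Set.mem_singleton_iff] at hz
        subst hz
        refine ⟨Or.inr ⟨j, 7, by norm_num, by norm_cast⟩, fun a => ?_⟩
        rw [st1_mul, st2_mul, S.p_R7]
        rfl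
    exact hle ((S.goodPair i j).commAB k m)

theorem finite_pow (f : Fin 2 → G) : {y | ∃ (i : Fin 2) (k : ℤ), |k| ≤ 7 ∧ y = f i ^ k}.Finite := by
  have : {y | ∃ (i : Fin 2) (k : ℤ), |k| ≤ 7 ∧ y = f i ^ k} ⊆
      (fun x : Fin 2 × ℤ => f x.1 ^ x.2) '' (Set.univ ×ˢ Set.Icc (-7) 7) := by
    rintro y ⟨i, k, hk, rfl⟩
    rw [abs_le] at hk
    exact ⟨(i, k), ⟨trivial, hk⟩, rfl⟩
  exact ((Set.finite_univ.prod (Set.finite_Icc _ _)).image _).subset this

theorem morse_Y_finite : S.morse.Y.Finite :=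
  (finite_pow S.L).union (finite_pow S.R)

theorem morse_Y_closure : Subgroup.closure S.morse.Y = ⊤ := by
  rw [eq_top_iff, ← S.hgen]
  apply Subgroup.closure_mono
  rintro _ ⟨i, rfl⟩
  fin_cases i
  · exact Or.inl ⟨0, 1, by norm_num, (zpow_one _).symm⟩
  · exact Or.inr ⟨0, 1, by norm_num, (zpow_one _).symm⟩
  · exact Or.inl ⟨1, 1, by norm_num, (zpow_one _).symm⟩
  · exact Or.inr ⟨1, 1, by norm_num, (zpow_one _).symm⟩

theorem p_rm (a : G) (v : F2) : Commute (S.p a).1 (rm v) ∧ Commute (S.p a).2 (rm v) := by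
  have ha : a ∈ Subgroup.closure (Set.range S.g) := by rw [S.hgen]; trivial
  induction ha using Subgroup.closure_induction with
  | mem z hz =>
    obtain ⟨i, rfl⟩ := hz
    rw [S.hp]
    fin_cases i
    · exact ⟨pa_rm v, Commute.one_left _⟩
    · exact ⟨Commute.one_left _, pa_rm v⟩
    · exact ⟨pc_rm v, Commute.one_left _⟩
    · exact ⟨Commute.one_left _, pc_rm v⟩
  | one => rw [map_one]; exact ⟨Commute.one_left _, Commute.one_left _⟩
  | mul a b ha hb iha ihb =>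
    rw [map_mul]
    exact ⟨iha.1.mul_left ihb.1, iha.2.mul_left ihb.2⟩
  | inv a ha iha =>
    rw [map_inv]
    exact ⟨iha.1.inv_left, iha.2.inv_left⟩

theorem equiv1 (a : G) (i : ZMod 7) (w v : F2) :
    (S.p a).1 (i, w * v) = (((S.p a).1 (i, w)).1, ((S.p a).1 (i, w)).2 * v) := by
  have h := congrArg (fun f : Equiv.Perm Pt => f (i, w)) (S.p_rm a v).1.eq
  exact h

theorem equiv2 (a : G) (i : ZMod 7) (w v : F2) :
    (S.p a).2 (i, w * v) = (((S.p a).2 (i, w)).1, ((S.p a).2 (i, w)).2 * v) := by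
  have h := congrArg (fun f : Equiv.Perm Pt => f (i, w)) (S.p_rm a v).2.eq
  exact h

/-- the class map -/
def cl (a : G) : ZMod 7 × ZMod 7 × ℤ :=
  ((S.st1 a).1, (S.st2 a).1, (chi (S.st1 a).2).toAdd + (chi (S.st2 a).2).toAdd)

theorem st1_of_zero {a b : G} (hb : (S.st1 b).1 = 0) :
    S.st1 (a * b) = ((S.st1 a).1, (S.st1 a).2 * (S.st1 b).2) := by
  rw [st1_mul]
  have key := S.equiv1 a 0 1 (S.st1 b).2
  have e : ((0 : ZMod 7), 1 * (S.st1 b).2) = S.st1 b := by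
    rw [one_mul, ← hb]
  rw [e] at key
  exact key

theorem st2_of_zero {a b : G} (hb : (S.st2 b).1 = 0) :
    S.st2 (a * b) = ((S.st2 a).1, (S.st2 a).2 * (S.st2 b).2) := by
  rw [st2_mul]
  have key := S.equiv2 a 0 1 (S.st2 b).2
  have e : ((0 : ZMod 7), 1 * (S.st2 b).2) = S.st2 b := by
    rw [one_mul, ← hb]
  rw [e] at key
  exact key

theorem st1_inv_mul {a b : G} (h : (S.st1 a).1 = (S.st1 b).1) :
    S.st1 (a⁻¹ * b) = (0, (S.st1 a).2⁻¹ * (S.st1 b).2) := by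
  rw [st1_mul]
  have h0 : (S.p a⁻¹).1 (S.st1 a) = (0, 1) := by
    rw [← st1_mul, inv_mul_cancel]
    simp [st1]
  have key := S.equiv1 a⁻¹ (S.st1 a).1 (S.st1 a).2 ((S.st1 a).2⁻¹ * (S.st1 b).2)
  have e : ((S.st1 a).1, (S.st1 a).2 * ((S.st1 a).2⁻¹ * (S.st1 b).2)) = S.st1 b := by
    rw [h, mul_inv_cancel_left]
  have e2 : ((S.st1 a).1, (S.st1 a).2) = S.st1 a := rfl
  rw [e, e2, h0] at key
  rw [key, one_mul]

theorem st2_inv_mul {a b : G} (h : (S.st2 a).1 = (S.st2 b).1) :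
    S.st2 (a⁻¹ * b) = (0, (S.st2 a).2⁻¹ * (S.st2 b).2) := by
  rw [st2_mul]
  have h0 : (S.p a⁻¹).2 (S.st2 a) = (0, 1) := by
    rw [← st2_mul, inv_mul_cancel]
    simp [st2]
  have key := S.equiv2 a⁻¹ (S.st2 a).1 (S.st2 a).2 ((S.st2 a).2⁻¹ * (S.st2 b).2)
  have e : ((S.st2 a).1, (S.st2 a).2 * ((S.st2 a).2⁻¹ * (S.st2 b).2)) = S.st2 b := by
    rw [h, mul_inv_cancel_left]
  have e2 : ((S.st2 a).1, (S.st2 a).2) = S.st2 a := rfl
  rw [e, e2, h0] at key
  rw [key, one_mul]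

/-- the subgroup -/
def N : Subgroup G where
  carrier := {a | (S.st1 a).1 = 0 ∧ (S.st2 a).1 = 0 ∧
    (chi (S.st1 a).2).toAdd + (chi (S.st2 a).2).toAdd = 0}
  mul_mem' := by
    rintro a b ⟨a1, a2, a3⟩ ⟨b1, b2, b3⟩
    refine ⟨?_, ?_, ?_⟩
    · rw [S.st1_of_zero b1]; exact a1
    · rw [S.st2_of_zero b2]; exact a2
    · rw [S.st1_of_zero b1, S.st2_of_zero b2]
      simp only [map_mul, toAdd_mul]
      linarith
  one_mem' := by
    refine ⟨?_, ?_, ?_⟩ <;> simp [st1, st2]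
  inv_mem' := by
    rintro a ⟨a1, a2, a3⟩
    have e1 := S.st1_inv_mul (a := a) (b := 1) (by rw [a1]; simp [st1])
    have e2 := S.st2_inv_mul (a := a) (b := 1) (by rw [a2]; simp [st2])
    rw [mul_one] at e1 e2
    refine ⟨?_, ?_, ?_⟩
    · rw [e1]
    · rw [e2]
    · rw [e1, e2]
      have f1 : (S.st1 1).2 = 1 := by simp [st1]
      have f2 : (S.st2 1).2 = 1 := by simp [st2]
      rw [f1, f2]
      simp only [mul_one, map_inv, toAdd_inv]
      linarith

theorem mem_N (a : G) : a ∈ S.N ↔ (S.st1 a).1 = 0 ∧ (S.st2 a).1 = 0 ∧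
    (chi (S.st1 a).2).toAdd + (chi (S.st2 a).2).toAdd = 0 := Iff.rfl

theorem mem_N_of_p {a : G} (h : S.p a = 1) : a ∈ S.N := by
  rw [mem_N]
  have h1 : S.st1 a = (0, 1) := by simp [st1, h]
  have h2 : S.st2 a = (0, 1) := by simp [st2, h]
  rw [h1, h2]
  simp

theorem cl_iff (a b : G) : S.cl a = S.cl b ↔ a⁻¹ * b ∈ S.N := by
  constructor
  · intro h
    simp only [cl, Prod.mk.injEq] at h
    obtain ⟨h1, h2, h3⟩ := h
    rw [mem_N, S.st1_inv_mul h1, S.st2_inv_mul h2]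
    refine ⟨rfl, rfl, ?_⟩
    simp only [map_mul, map_inv, toAdd_mul, toAdd_inv]
    linarith
  · intro h
    rw [mem_N] at h
    obtain ⟨h1, h2, h3⟩ := h
    have e1 := S.st1_of_zero (a := a) h1
    have e2 := S.st2_of_zero (a := a) h2
    rw [mul_inv_cancel_left] at e1 e2
    simp only [cl, Prod.mk.injEq]
    rw [e1, e2]
    refine ⟨rfl, rfl, ?_⟩
    simp only [map_mul, toAdd_mul]
    linarith

/-- level of a class -/
def clev (c : ZMod 7 × ZMod 7 × ℤ) : ℤ :=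
  2 * c.2.2 + (if c.1 = 0 then 0 else 1) + (if c.2.1 = 0 then 0 else 1)

theorem lev_eq (a : G) : S.morse.lev a = clev (S.cl a) := by
  show lv (S.st1 a) + lv (S.st2 a) = _
  simp only [lv, clev, cl]
  ring_nf

theorem clev_finite (s t : ℤ) : {c | s ≤ clev c ∧ clev c ≤ t}.Finite := by
  have : {c | s ≤ clev c ∧ clev c ≤ t} ⊆
      (Set.univ ×ˢ (Set.univ ×ˢ Set.Icc (-|s| - 2) (|t| + 2)) :
        Set (ZMod 7 × ZMod 7 × ℤ)) := by
    rintro ⟨i, j, n⟩ ⟨h1, h2⟩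
    refine ⟨trivial, trivial, ?_⟩
    unfold clev at h1 h2
    simp only at h1 h2
    have a1 := neg_abs_le s
    have a2 := le_abs_self t
    have a3 := abs_nonneg s
    have a4 := abs_nonneg t
    show -|s| - 2 ≤ n ∧ n ≤ |t| + 2
    split_ifs at h1 h2 <;> constructor <;> omega
  exact (Set.finite_univ.prod (Set.finite_univ.prod (Set.finite_Icc _ _))).subset this

theorem N_fg : S.N.FG := by
  refine S.morse.fg_of_class S.morse_Y_closure S.morse_Y_finite S.cl S.N S.cl_iff 0 1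
    (by norm_num) ?_ ?_ ?_
  · intro a b h
    rw [lev_eq, lev_eq, h]
  · rw [MorseData.mem_win, lev_eq]
    have : S.cl 1 = (0, 0, 0) := by simp [cl, st1, st2]
    rw [this]
    simp [clev]
  · refine (clev_finite 0 1).subset ?_
    rintro _ ⟨a, ha, rfl⟩
    rw [MorseData.mem_win, lev_eq] at ha
    exact ha

/-- first homomorphism to the free group -/
def h1 : S.N →* F2 where
  toFun a := (S.st1 (a : G)).2
  map_one' := by simp [st1]
  map_mul' := by
    rintro ⟨a, ha⟩ ⟨b, hb⟩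
    show (S.st1 (a * b)).2 = (S.st1 a).2 * (S.st1 b).2
    rw [S.st1_of_zero hb.1]

/-- second homomorphism to the free group -/
def h2 : S.N →* F2 where
  toFun a := (S.st2 (a : G)).2
  map_one' := by simp [st2]
  map_mul' := by
    rintro ⟨a, ha⟩ ⟨b, hb⟩
    show (S.st2 (a * b)).2 = (S.st2 a).2 * (S.st2 b).2
    rw [S.st2_of_zero hb.2.1]

/-- special elements -/
def sL : G := (S.L 1)⁻¹ * S.L 0
def sR : G := (S.R 1)⁻¹ * S.R 0
def eL : G := (S.L 1)⁻¹ * (S.L 1)⁻¹ * S.L 0 * S.L 1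
def eR : G := (S.R 1)⁻¹ * (S.R 1)⁻¹ * S.R 0 * S.R 1

theorem p_sL : S.p S.sL = (pc⁻¹ * pa, 1) := by
  rw [sL, map_mul, map_inv, p_L, p_L]
  ext1 <;> simp [pp]

theorem p_sR : S.p S.sR = (1, pc⁻¹ * pa) := by
  rw [sR, map_mul, map_inv, p_R, p_R]
  ext1 <;> simp [pp]

theorem p_eL : S.p S.eL = (pc⁻¹ * pc⁻¹ * pa * pc, 1) := by
  rw [eL, map_mul, map_mul, map_mul, map_inv, p_L, p_L]
  ext1 <;> simp [pp]

theorem p_eR : S.p S.eR = (1, pc⁻¹ * pc⁻¹ * pa * pc) := by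
  rw [eR, map_mul, map_mul, map_mul, map_inv, p_R, p_R]
  ext1 <;> simp [pp]

theorem st1_sL : S.st1 S.sL = (0, FreeGroup.of 0) := by
  rw [st1, p_sL]; exact special_s

theorem st2_sL : S.st2 S.sL = (0, 1) := by
  rw [st2, p_sL]; rfl

theorem st1_sR : S.st1 S.sR = (0, 1) := by
  rw [st1, p_sR]; rfl

theorem st2_sR : S.st2 S.sR = (0, FreeGroup.of 0) := by
  rw [st2, p_sR]; exact special_s

theorem st1_eL : S.st1 S.eL = (0, FreeGroup.of 1) := by
  rw [st1, p_eL]; exact special_e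

theorem st2_eL : S.st2 S.eL = (0, 1) := by
  rw [st2, p_eL]; rfl

theorem st1_eR : S.st1 S.eR = (0, 1) := by
  rw [st1, p_eR]; rfl

theorem st2_eR : S.st2 S.eR = (0, FreeGroup.of 1) := by
  rw [st2, p_eR]; exact special_e

/-- the diagonal element -/
def xx : G := S.sL * S.sR⁻¹

theorem st1_xx : S.st1 S.xx = (0, FreeGroup.of 0) := by
  have h := S.st1_inv_mul (a := S.sR) (b := 1) (by rw [st1_sR]; simp [st1])
  rw [mul_one, st1_sR] at h
  have f1 : (S.st1 1).2 = 1 := by simp [st1]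
  rw [f1] at h
  rw [xx, S.st1_of_zero (by rw [h]), h, st1_sL]
  simp

theorem st2_xx : S.st2 S.xx = (0, (FreeGroup.of 0)⁻¹) := by
  have h := S.st2_inv_mul (a := S.sR) (b := 1) (by rw [st2_sR]; simp [st2])
  rw [mul_one, st2_sR] at h
  have f1 : (S.st2 1).2 = 1 := by simp [st2]
  rw [f1] at h
  rw [xx, S.st2_of_zero (by rw [h]), h, st2_sL]
  simp

theorem xx_mem : S.xx ∈ S.N := by
  rw [mem_N, st1_xx, st2_xx]
  simp

theorem eL_mem : S.eL ∈ S.N := by
  rw [mem_N, st1_eL, st2_eL]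
  simp [chi]

theorem eR_mem : S.eR ∈ S.N := by
  rw [mem_N, st1_eR, st2_eR]
  simp [chi]

/-- the normal subgroup generated by the seventh powers -/
def M : Subgroup G := Subgroup.normalClosure {z | (∃ i, z = S.L i ^ 7) ∨ ∃ j, z = S.R j ^ 7}

instance : S.M.Normal := Subgroup.normalClosure_normal

theorem comm_mod (i j : Fin 2) :
    Commute (QuotientGroup.mk' S.M (S.L i)) (QuotientGroup.mk' S.M (S.R j)) := by
  have h := (S.goodPair i j).comm
  have hle : V7 (S.L i) (S.R j) ≤ S.M := by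
    rw [V7, Subgroup.closure_le]
    rintro z (rfl | hz)
    · exact Subgroup.subset_normalClosure (Or.inl ⟨i, rfl⟩)
    · rw [Set.mem_singleton_iff] at hz
      subst hz
      exact Subgroup.subset_normalClosure (Or.inr ⟨j, rfl⟩)
  have h1 : QuotientGroup.mk' S.M (S.L i * S.R j * (S.L i)⁻¹ * (S.R j)⁻¹) = 1 :=
    (QuotientGroup.eq_one_iff _).2 (hle h)
  rw [map_mul, map_mul, map_mul, map_inv, map_inv, mul_inv_eq_one, mul_inv_eq_iff_eq_mul] at h1
  exact h1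

theorem kappa_mem (n : ℤ) :
    (S.xx ^ n * S.eL * (S.xx ^ n)⁻¹) * S.eR * (S.xx ^ n * S.eL * (S.xx ^ n)⁻¹)⁻¹ * S.eR⁻¹ ∈ S.M := by
  set π := QuotientGroup.mk' S.M with hπ
  have c00 := S.comm_mod 0 0
  have c01 := S.comm_mod 0 1
  have c10 := S.comm_mod 1 0
  have c11 := S.comm_mod 1 1
  have hsL : ∀ j, Commute (π S.sL) (π (S.R j)) := by
    intro j
    rw [sL, map_mul, map_inv]
    exact ((S.comm_mod 1 j).inv_left).mul_left (S.comm_mod 0 j)
  have heL : ∀ j, Commute (π S.eL) (π (S.R j)) := by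
    intro j
    rw [eL, map_mul, map_mul, map_mul, map_inv]
    exact ((((S.comm_mod 1 j).inv_left).mul_left (S.comm_mod 1 j).inv_left).mul_left
      (S.comm_mod 0 j)).mul_left (S.comm_mod 1 j)
  have h1 : Commute (π S.sL) (π S.sR) := by
    conv_rhs => rw [sR, map_mul, map_inv]
    exact ((hsL 1).inv_right).mul_right (hsL 0)
  have h2 : Commute (π S.eL) (π S.sR) := by
    conv_rhs => rw [sR, map_mul, map_inv]
    exact ((heL 1).inv_right).mul_right (heL 0)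
  have h3 : Commute (π S.sL) (π S.eR) := by
    conv_rhs => rw [eR, map_mul, map_mul, map_mul, map_inv]
    exact ((((hsL 1).inv_right).mul_right (hsL 1).inv_right).mul_right (hsL 0)).mul_right (hsL 1)
  have h4 : Commute (π S.eL) (π S.eR) := by
    conv_rhs => rw [eR, map_mul, map_mul, map_mul, map_inv]
    exact ((((heL 1).inv_right).mul_right (heL 1).inv_right).mul_right (heL 0)).mul_right (heL 1)
  have hx : π (S.xx ^ n * S.eL * (S.xx ^ n)⁻¹) = π S.sL ^ n * π S.eL * (π S.sL ^ n)⁻¹ := by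
    have e1 : π (S.xx ^ n) = π S.sL ^ n * (π S.sR)⁻¹ ^ n := by
      rw [map_zpow, xx, map_mul, map_inv]
      exact (h1.inv_right).mul_zpow n
    rw [map_mul, map_mul, map_inv, e1]
    have h5 : Commute (π S.eL) ((π S.sR)⁻¹ ^ n) := (h2.inv_right).zpow_right n
    have h6 : (π S.sR)⁻¹ ^ n * π S.eL * ((π S.sR)⁻¹ ^ n)⁻¹ = π S.eL := by
      rw [← h5.eq, mul_inv_cancel_right]
    calc π S.sL ^ n * (π S.sR)⁻¹ ^ n * π S.eL * (π S.sL ^ n * (π S.sR)⁻¹ ^ n)⁻¹
        = π S.sL ^ n * ((π S.sR)⁻¹ ^ n * π S.eL * ((π S.sR)⁻¹ ^ n)⁻¹) * (π S.sL ^ n)⁻¹ := by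
          rw [mul_inv_rev]; simp only [mul_assoc]
      _ = _ := by rw [h6]
  have hcomm : Commute (π (S.xx ^ n * S.eL * (S.xx ^ n)⁻¹)) (π S.eR) := by
    rw [hx]
    have h7 : Commute (π S.sL ^ n) (π S.eR) := h3.zpow_left n
    exact (h7.mul_left h4).mul_left h7.inv_left
  have : ∀ a b : G, Commute (π a) (π b) → a * b * a⁻¹ * b⁻¹ ∈ S.M := by
    intro a b hab
    have h8 : π (a * b * a⁻¹ * b⁻¹) = 1 := by
      rw [map_mul, map_mul, map_mul, map_inv, map_inv, hab.eq, mul_inv_cancel_right,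
        mul_inv_cancel]
    exact (QuotientGroup.eq_one_iff _).1 h8
  exact this _ _ hcomm

end Setting

end Pool.Agent.MP_4804cd_al
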