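import Pool.Agent.MP_4804cd_al.Limit

/-!
The two permutations of `ZMod 7 × F2` of order seven and their level function.
-/

set_option autoImplicit false

namespace Pool.Agent.MP_4804cd_al

abbrev Pt : Type := ZMod 7 × F2

/-- the cocycle -/
def theta (i : ZMod 7) : F2 :=
  if i = 0 then 1 else if i = 2 then FreeGroup.of 1 * FreeGroup.of 0 else FreeGroup.of 0

/-- rotation -/
def pa : Equiv.Perm Pt where
  toFun x := (x.1 + 1, x.2)
  invFun x := (x.1 - 1, x.2)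
  left_inv x := by simp
  right_inv x := by simp

/-- twisting -/
def th : Equiv.Perm Pt where
  toFun x := (x.1, theta x.1 * x.2)
  invFun x := (x.1, (theta x.1)⁻¹ * x.2)
  left_inv x := by simp
  right_inv x := by simp

/-- twisted rotation -/
def pc : Equiv.Perm Pt := th⁻¹ * pa * th

/-- right multiplication -/
def rm (v : F2) : Equiv.Perm Pt where
  toFun x := (x.1, x.2 * v)
  invFun x := (x.1, x.2 * v⁻¹)
  left_inv x := by simp
  right_inv x := by simp

theorem pa_zpow (k : ℤ) (x : Pt) : (pa ^ k) x = (x.1 + k, x.2) := by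
  induction k using Int.induction_on generalizing x with
  | zero => simp
  | succ n ih =>
    rw [zpow_add_one, Equiv.Perm.mul_apply, ih]
    simp only [pa, Equiv.coe_fn_mk, Prod.mk.injEq, and_true]
    push_cast; ring
  | pred n ih =>
    rw [zpow_sub_one, Equiv.Perm.mul_apply, ih]
    have : pa⁻¹ x = (x.1 - 1, x.2) := rfl
    rw [this]
    simp only [Prod.mk.injEq, and_true]
    push_cast; ring

theorem pc_zpow (k : ℤ) (x : Pt) :
    (pc ^ k) x = (x.1 + k, (theta (x.1 + k))⁻¹ * (theta x.1 * x.2)) := by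
  have h : pc ^ k = th⁻¹ * pa ^ k * th := by
    have := conj_zpow (a := th⁻¹) (b := pa) (i := k)
    rw [inv_inv] at this
    exact this
  rw [h, Equiv.Perm.mul_apply, Equiv.Perm.mul_apply, pa_zpow]
  rfl

theorem pa_seven : pa ^ 7 = 1 := by
  ext1 x
  have := pa_zpow 7 x
  have h7 : ((7 : ℤ) : ZMod 7) = 0 := by decide
  rw [h7, add_zero] at this
  have e : pa ^ 7 = pa ^ (7 : ℤ) := by norm_cast
  rw [e, this]
  rfl

theorem pc_seven : pc ^ 7 = 1 := by
  ext1 x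
  have := pc_zpow 7 x
  have h7 : ((7 : ℤ) : ZMod 7) = 0 := by decide
  rw [h7, add_zero, inv_mul_cancel_left] at this
  have e : pc ^ 7 = pc ^ (7 : ℤ) := by norm_cast
  rw [e, this]
  rfl

theorem pa_rm (v : F2) : Commute pa (rm v) := by
  ext1 x
  rfl

theorem th_rm (v : F2) : Commute th (rm v) := by
  ext1 x
  show (x.1, theta x.1 * (x.2 * v)) = (x.1, theta x.1 * x.2 * v)
  rw [mul_assoc]

theorem pc_rm (v : F2) : Commute pc (rm v) :=
  (((th_rm v).inv_left).mul_left (pa_rm v)).mul_left (th_rm v)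

/-- the level of a point -/
def lv (x : Pt) : ℤ := 2 * (chi x.2).toAdd + if x.1 = 0 then 0 else 1

theorem chi_theta (i : ZMod 7) : (chi (theta i)).toAdd = if i = 0 then 0 else 1 := by
  unfold theta
  split_ifs with h1 h2
  · simp
  · simp [chi]
  · simp [chi]

theorem lv_pa (k : ℤ) (x : Pt) :
    lv ((pa ^ k) x) = 2 * (chi x.2).toAdd + if x.1 + k = 0 then 0 else 1 := by
  rw [pa_zpow]
  rfl

theorem lv_pc (k : ℤ) (x : Pt) :
    lv ((pc ^ k) x) = 2 * (chi x.2).toAdd + 2 * (if x.1 = 0 then 0 else 1) -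
      if x.1 + k = 0 then 0 else 1 := by
  rw [pc_zpow]
  unfold lv
  simp only [map_mul, map_inv, toAdd_mul, toAdd_inv, chi_theta]
  split_ifs <;> ring

theorem lv_pa_step (k : ℤ) (x : Pt) : |lv ((pa ^ k) x) - lv x| ≤ 1 := by
  rw [lv_pa]
  unfold lv
  split_ifs <;> simp

theorem lv_pc_step (k : ℤ) (x : Pt) : |lv ((pc ^ k) x) - lv x| ≤ 1 := by
  rw [lv_pc]
  unfold lv
  split_ifs
  · simp
  · rw [abs_le]; constructor <;> linarith
  · rw [abs_le]; constructor <;> linarith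
  · rw [abs_le]; constructor <;> linarith

/-- the two permutations together -/
def pp : Fin 2 → Equiv.Perm Pt
  | 0 => pa
  | 1 => pc

theorem lv_step (i : Fin 2) (k : ℤ) (x : Pt) : |lv ((pp i ^ k) x) - lv x| ≤ 1 := by
  fin_cases i
  · exact lv_pa_step k x
  · exact lv_pc_step k x

theorem exists_neg (i : ZMod 7) : ∃ k : ℤ, |k| ≤ 7 ∧ i + k = 0 := by
  have hlt := ZMod.val_lt i
  refine ⟨-(i.val : ℤ), ?_, ?_⟩
  · rw [abs_neg, abs_of_nonneg (by positivity)]
    omega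
  · push_cast
    rw [ZMod.natCast_zmod_val]
    ring

theorem lv_low (x : Pt) : ∃ (i : Fin 2) (k : ℤ), |k| ≤ 7 ∧ lv ((pp i ^ k) x) = lv x - 1 := by
  by_cases hx : x.1 = 0
  · refine ⟨1, 1, by norm_num, ?_⟩
    show lv ((pc ^ (1 : ℤ)) x) = lv x - 1
    rw [lv_pc]
    unfold lv
    rw [hx]
    have : (0 : ZMod 7) + ((1 : ℤ) : ZMod 7) ≠ 0 := by decide
    rw [if_pos rfl, if_neg this]
    ring
  · obtain ⟨k, hk, hk0⟩ := exists_neg x.1
    refine ⟨0, k, hk, ?_⟩
    show lv ((pa ^ k) x) = lv x - 1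
    rw [lv_pa, if_pos hk0]
    unfold lv
    rw [if_neg hx]
    ring

theorem lv_up (x : Pt) : ∃ (i : Fin 2) (k : ℤ), |k| ≤ 7 ∧ lv ((pp i ^ k) x) = lv x + 1 := by
  by_cases hx : x.1 = 0
  · refine ⟨0, 1, by norm_num, ?_⟩
    show lv ((pa ^ (1 : ℤ)) x) = lv x + 1
    rw [lv_pa]
    unfold lv
    rw [hx]
    have : (0 : ZMod 7) + ((1 : ℤ) : ZMod 7) ≠ 0 := by decide
    rw [if_pos rfl, if_neg this]
    ring
  · obtain ⟨k, hk, hk0⟩ := exists_neg x.1
    refine ⟨1, k, hk, ?_⟩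
    show lv ((pc ^ k) x) = lv x + 1
    rw [lv_pc, if_pos hk0]
    unfold lv
    rw [if_neg hx]
    ring

theorem pp_seven (i : Fin 2) : pp i ^ 7 = 1 := by
  fin_cases i
  · exact pa_seven
  · exact pc_seven

theorem pp_rm (i : Fin 2) (v : F2) : Commute (pp i) (rm v) := by
  fin_cases i
  · exact pa_rm v
  · exact pc_rm v

/-! the special elements -/

theorem special_s : ((pc⁻¹ * pa) ((0, 1) : Pt)) = (0, FreeGroup.of 0) := by
  have h1 : pa ((0, 1) : Pt) = (1, 1) := rfl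
  have h2 := pc_zpow (-1) ((1, 1) : Pt)
  rw [zpow_neg_one] at h2
  rw [Equiv.Perm.mul_apply, h1, h2]
  have e : (1 : ZMod 7) + ((-1 : ℤ) : ZMod 7) = 0 := by decide
  show ((1 : ZMod 7) + ((-1 : ℤ) : ZMod 7), (theta ((1 : ZMod 7) + ((-1 : ℤ) : ZMod 7)))⁻¹ *
    (theta 1 * 1)) = _
  rw [e]
  have t0 : theta 0 = 1 := by simp [theta]
  have t1 : theta 1 = FreeGroup.of 0 := by
    unfold theta
    rw [if_neg (by decide), if_neg (by decide)]
  rw [t0, t1]
  simp

theorem special_e : ((pc⁻¹ * pc⁻¹ * pa * pc) ((0, 1) : Pt)) = (0, FreeGroup.of 1) := by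
  have t0 : theta 0 = 1 := by simp [theta]
  have t1 : theta 1 = FreeGroup.of 0 := by
    unfold theta
    rw [if_neg (by decide), if_neg (by decide)]
  have t2 : theta 2 = FreeGroup.of 1 * FreeGroup.of 0 := by
    unfold theta
    rw [if_neg (by decide), if_pos rfl]
  have h0 := pc_zpow 1 ((0, 1) : Pt)
  rw [zpow_one] at h0
  have e01 : (0 : ZMod 7) + ((1 : ℤ) : ZMod 7) = 1 := by decide
  have h0' : pc ((0, 1) : Pt) = (1, (FreeGroup.of 0)⁻¹) := by
    rw [h0]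
    show ((0 : ZMod 7) + ((1 : ℤ) : ZMod 7), (theta ((0 : ZMod 7) + ((1 : ℤ) : ZMod 7)))⁻¹ *
      (theta 0 * 1)) = _
    rw [e01, t0, t1]
    simp
  have h1 : pa ((1, (FreeGroup.of 0)⁻¹) : Pt) = (2, (FreeGroup.of 0)⁻¹) := rfl
  have h2 := pc_zpow (-2) ((2, (FreeGroup.of 0)⁻¹) : Pt)
  have e : pc⁻¹ * pc⁻¹ * pa * pc = pc ^ (-2 : ℤ) * (pa * pc) := by group
  rw [e, Equiv.Perm.mul_apply, Equiv.Perm.mul_apply, h0', h1, h2]
  have e2 : (2 : ZMod 7) + ((-2 : ℤ) : ZMod 7) = 0 := by decide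
  show ((2 : ZMod 7) + ((-2 : ℤ) : ZMod 7), (theta ((2 : ZMod 7) + ((-2 : ℤ) : ZMod 7)))⁻¹ *
    (theta 2 * (FreeGroup.of 0)⁻¹)) = _
  rw [e2, t0, t2]
  simp

end Pool.Agent.MP_4804cd_al
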